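import Pool.Agent.Lib.MP_ccb155_nt.A1_Step

set_option autoImplicit false

namespace Pool.Agent.Lib.MP_ccb155_nt

open Finset

/-- The polynomial `A_j(X) = ∑_{l < T_j} c_{j,l} X^l / l!`. -/
noncomputable def polyOf {m : ℕ} (T : Fin (m + 1) → ℕ) (c : Fin (m + 1) → ℕ → ℚ)
    (j : Fin (m + 1)) : Polynomial ℚ :=
  ∑ l ∈ range (T j), Polynomial.monomial l (c j l / (l.factorial : ℚ))

/-- The power series `e^{wX}`. -/
noncomputable def expS (w : ℕ) : PowerSeries ℚ := PowerSeries.mk fun n => (w : ℚ) ^ n / (n.factorial : ℚ)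

theorem coeff_polyOf {m : ℕ} (T : Fin (m + 1) → ℕ) (c : Fin (m + 1) → ℕ → ℚ)
    (supp : ∀ j l, T j ≤ l → c j l = 0) (j : Fin (m + 1)) (l : ℕ) :
    (polyOf T c j).coeff l = c j l / (l.factorial : ℚ) := by
  unfold polyOf
  rw [Polynomial.finsetSum_coeff]
  simp_rw [Polynomial.coeff_monomial]
  by_cases h : l < T j
  · rw [Finset.sum_eq_single l]
    · simp
    · intro b _ hb
      simp [hb]
    · intro h2
      exact absurd (Finset.mem_range.mpr h) h2
  · rw [supp j l (not_lt.mp h), zero_div]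
    refine Finset.sum_eq_zero fun b hb => ?_
    have hb' : b < T j := Finset.mem_range.mp hb
    have : b ≠ l := by
      rintro rfl
      exact h hb'
    simp [this]

private theorem coeff_term (a : ℚ) (w l n : ℕ) :
    PowerSeries.coeff n (((Polynomial.monomial l (a / (l.factorial : ℚ)) : Polynomial ℚ) :
      PowerSeries ℚ) * expS w) = a * (n.choose l : ℚ) * (w : ℚ) ^ (n - l) / (n.factorial : ℚ) := by
  rw [← Polynomial.C_mul_X_pow_eq_monomial, Polynomial.coe_mul, Polynomial.coe_C,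
    Polynomial.coe_pow, Polynomial.coe_X, mul_assoc, PowerSeries.coeff_C_mul,
    PowerSeries.coeff_X_pow_mul']
  split_ifs with h
  · rw [Nat.cast_choose ℚ h]
    unfold expS
    rw [PowerSeries.coeff_mk]
    have h1 : (l.factorial : ℚ) ≠ 0 := by exact_mod_cast l.factorial_ne_zero
    have h2 : (n.factorial : ℚ) ≠ 0 := by exact_mod_cast n.factorial_ne_zero
    have h3 : ((n - l).factorial : ℚ) ≠ 0 := by exact_mod_cast (n - l).factorial_ne_zero
    field_simp
  · rw [Nat.choose_eq_zero_of_lt (not_le.mp h)]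
    simp

/-- The Taylor coefficients of `∑_j A_j(X) e^{w_j X}` are `h_n / n!`. -/
theorem coeff_sum_exp {m : ℕ} (w T : Fin (m + 1) → ℕ) (c : Fin (m + 1) → ℕ → ℚ) (n : ℕ) :
    PowerSeries.coeff n (∑ j, (polyOf T c j : PowerSeries ℚ) * expS (w j)) =
      hc w T c n / (n.factorial : ℚ) := by
  rw [map_sum]
  unfold hc
  rw [Finset.sum_div]
  refine Finset.sum_congr rfl fun j _ => ?_
  rw [Finset.sum_div]
  unfold polyOf
  have h1 : ((∑ l ∈ range (T j), Polynomial.monomial l (c j l / (l.factorial : ℚ)) :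
      Polynomial ℚ) : PowerSeries ℚ) = ∑ l ∈ range (T j),
      ((Polynomial.monomial l (c j l / (l.factorial : ℚ)) : Polynomial ℚ) : PowerSeries ℚ) := by
    ext k
    rw [Polynomial.coeff_coe, Polynomial.finsetSum_coeff, map_sum]
    exact Finset.sum_congr rfl fun l _ => (Polynomial.coeff_coe _ _).symm
  rw [h1, Finset.sum_mul, map_sum]
  exact Finset.sum_congr rfl fun l _ => coeff_term _ _ _ _

/-- Hence `∑_j A_j(X) e^{w_j X}` is divisible by `X^K`, `K + 1 = ∑ T_j`. -/
theorem X_pow_dvd_sum_exp {m : ℕ} (w : Fin (m + 1) → ℕ) (V W : ℕ) (T : Fin (m + 1) → ℕ)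
    (c : Fin (m + 1) → ℕ → ℚ) (h : PF w V W T c) (K : ℕ) (hK : ∑ j, T j = K + 1) :
    (PowerSeries.X : PowerSeries ℚ) ^ K ∣ ∑ j, (polyOf T c j : PowerSeries ℚ) * expS (w j) := by
  rw [PowerSeries.X_pow_dvd_iff]
  intro n hn
  rw [coeff_sum_exp]
  have h1 := h.high n
  rw [hK, Nat.add_sub_cancel, Nat.choose_eq_zero_of_lt hn] at h1
  have h2 : hc w T c n = 0 := by
    rw [← abs_nonpos_iff]
    simpa using h1
  rw [h2, zero_div]

end Pool.Agent.Lib.MP_ccb155_nt
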