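import Mathlib

set_option autoImplicit false

namespace Pool.Agent.Lib.MP_ccb155_nt

open Finset

/-- If the entries of the polynomial matrix `A` have degree `≤ T`, the matrix of the coefficients of
`X^T` is invertible, and all row combinations `∑_j A_{ij} E_j` (`E_0` with nonzero constant term) are
divisible by `X^{(m+1)T}` as power series, then `det A` is a nonzero multiple of `X^{(m+1)T}` and does
not vanish at `g ≠ 0`.
Proof: `det(A) E_0 = ∑_i adj(A)_{0i} ∑_j A_{ij} E_j` is divisible by `X^{(m+1)T}`, so is `det A`;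
`natDegree (det A) ≤ (m+1)T`, and the coefficient of `X^{(m+1)T}` is the determinant of the
coefficients (`Matrix.det_apply`, `Polynomial.coeff_prod_of_natDegree_le`). -/
theorem det_eval_ne_zero {m : ℕ} (T : ℕ) (A : Matrix (Fin (m + 1)) (Fin (m + 1)) (Polynomial ℚ))
    (hdeg : ∀ i j, (A i j).natDegree ≤ T)
    (hlead : (Matrix.of fun i j => (A i j).coeff T).det ≠ 0)
    (E : Fin (m + 1) → PowerSeries ℚ) (hE : PowerSeries.constantCoeff (E 0) ≠ 0)
    (hdiv : ∀ i, (PowerSeries.X : PowerSeries ℚ) ^ ((m + 1) * T) ∣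
      ∑ j, (A i j : PowerSeries ℚ) * E j) (g : ℚ) (hg : g ≠ 0) :
    (Matrix.of fun i j => (A i j).eval g).det ≠ 0 := by
  classical
  set N := (m + 1) * T with hN
  -- divisibility of the determinant
  have hd : (PowerSeries.X : PowerSeries ℚ) ^ N ∣ (A.det : PowerSeries ℚ) := by
    set A' : Matrix (Fin (m + 1)) (Fin (m + 1)) (PowerSeries ℚ) :=
      (Polynomial.coeToPowerSeries.ringHom (R := ℚ)).mapMatrix A with hA'
    have h1 : A'.det = (A.det : PowerSeries ℚ) := by
      rw [hA', ← RingHom.map_det]
      rfl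
    have h2 : (A'.adjugate.mulVec (A'.mulVec E)) 0 = A'.det * E 0 := by
      rw [Matrix.mulVec_mulVec, Matrix.adjugate_mul, Matrix.smul_mulVec, Matrix.one_mulVec]
      simp
    have h3 : (PowerSeries.X : PowerSeries ℚ) ^ N ∣ A'.det * E 0 := by
      rw [← h2]
      have h5 : (A'.adjugate.mulVec (A'.mulVec E)) 0 =
          ∑ i, A'.adjugate 0 i * (∑ j, (A i j : PowerSeries ℚ) * E j) := rfl
      rw [h5]
      exact Finset.dvd_sum fun i _ => Dvd.dvd.mul_left (hdiv i) _
    have h4 : IsUnit (E 0) := by
      rw [PowerSeries.isUnit_iff_constantCoeff]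
      exact isUnit_iff_ne_zero.mpr hE
    rw [← h1]
    exact (h4.dvd_mul_right).mp h3
  have hdeg2 : A.det.natDegree ≤ N := by
    rw [Matrix.det_apply]
    refine Polynomial.natDegree_sum_le_of_forall_le _ _ fun σ _ => ?_
    refine (Polynomial.natDegree_smul_le _ _).trans ?_
    refine (Polynomial.natDegree_prod_le _ _).trans ?_
    calc ∑ i : Fin (m + 1), (A (σ i) i).natDegree ≤ ∑ _i : Fin (m + 1), T :=
          Finset.sum_le_sum fun i _ => hdeg _ _
      _ = N := by simp [hN]
  have hco : A.det.coeff N = (Matrix.of fun i j => (A i j).coeff T).det := by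
    rw [Matrix.det_apply, Matrix.det_apply, Polynomial.finsetSum_coeff]
    refine Finset.sum_congr rfl fun σ _ => ?_
    rw [Polynomial.coeff_smul]
    congr 1
    have h := Polynomial.coeff_prod_of_natDegree_le (s := (univ : Finset (Fin (m + 1))))
      (fun i => A (σ i) i) T (fun i _ => hdeg _ _)
    simpa [hN] using h
  have hdet : A.det = Polynomial.C (A.det.coeff N) * Polynomial.X ^ N := by
    ext k
    rw [Polynomial.coeff_C_mul_X_pow]
    rcases lt_trichotomy k N with h | h | h
    · rw [if_neg h.ne]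
      have := (PowerSeries.X_pow_dvd_iff.mp hd) k h
      rwa [Polynomial.coeff_coe] at this
    · rw [if_pos h, h]
    · rw [if_neg h.ne']
      exact Polynomial.coeff_eq_zero_of_natDegree_lt (lt_of_le_of_lt hdeg2 h)
  have hev : (Matrix.of fun i j => (A i j).eval g).det = A.det.eval g := by
    have h := (Polynomial.evalRingHom g).map_det A
    rw [Polynomial.coe_evalRingHom] at h
    rw [h]
    rfl
  rw [hev, hdet, hco, Polynomial.eval_mul, Polynomial.eval_C, Polynomial.eval_pow,
    Polynomial.eval_X]
  exact mul_ne_zero hlead (pow_ne_zero _ hg)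

end Pool.Agent.Lib.MP_ccb155_nt
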