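import Pool.Agent.Lib.MP_ccb155_nt.A2_Exists
import Pool.Agent.Lib.MP_ccb155_nt.A3_Analytic
import Pool.Agent.Lib.MP_ccb155_nt.A4c_DetHP

set_option autoImplicit false

namespace Pool.Agent.Lib.MP_ccb155_nt

open Finset

/-- Bound of the coefficients of the integer linear forms. -/
noncomputable def bndH (V m T g : ℕ) : ℝ :=
  (V : ℝ) ^ ((m + 1) * T + 1) * (T.factorial : ℝ) * 2 ^ ((m + 1) * T + 1) * (g : ℝ) ^ T

/-- Bound of the values of the integer linear forms at `(e^{w_j g})_j`. -/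
noncomputable def bndL (V m T g W : ℕ) : ℝ :=
  (V : ℝ) ^ ((m + 1) * T + 1) * (T.factorial : ℝ) *
    ((g : ℝ) ^ ((m + 1) * T) / (((m + 1) * T).factorial : ℝ) * Real.exp (W * g))

private lemma incT_le {m : ℕ} (T : ℕ) (i j : Fin (m + 1)) :
    incT (fun _ => T) i j ≤ T + 1 := by
  unfold incT
  split_ifs
  · exact le_refl _
  · exact Nat.le_succ _

/-- Hermite-Padé: `m+1` independent integer linear forms, small at `(e^{w_j g})_j`. Row `i` is
`V^M T! ∑_l c^{(i)}_{j,l} g^l / l!`, `M = (m+1)T+1`, with `c^{(i)}` from `exists_pf` for the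
multiplicities `incT (fun _ => T) i`. -/
theorem hermite_pade {m : ℕ} (w : Fin (m + 1) → ℕ) (hw : Function.Injective w) (V W T g : ℕ)
    (hV0 : 0 < V) (hV : ∀ i j, i ≠ j → ((w i : ℤ) - (w j : ℤ)) ∣ (V : ℤ)) (hW : ∀ j, w j ≤ W)
    (hT : 1 ≤ T) (hg : 1 ≤ g) :
    ∃ B : Matrix (Fin (m + 1)) (Fin (m + 1)) ℤ, B.det ≠ 0 ∧
      (∀ i j, |(B i j : ℝ)| ≤ bndH V m T g) ∧
      (∀ i, |∑ j, (B i j : ℝ) * Real.exp (w j * g)| ≤ bndL V m T g W) := by
  have hsum : ∀ i : Fin (m + 1), ∑ j, incT (fun _ => T) i j = (m + 1) * T + 1 := by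
    intro i
    rw [sum_incT]
    simp
  choose c hc using fun i : Fin (m + 1) =>
    exists_pf w hw V W hV0 hV hW ((m + 1) * T) (incT (fun _ => T) i) (hsum i)
  -- integrality
  have hint : ∀ i j : Fin (m + 1), ∃ z : ℤ,
      (V : ℚ) ^ ((m + 1) * T + 1) * (T.factorial : ℚ) *
        ∑ l ∈ range (incT (fun _ => T) i j), c i j l * ((g : ℚ) ^ l / (l.factorial : ℚ)) = z := by
    intro i j
    have h1 : ∀ l ∈ range (incT (fun _ => T) i j), ∃ z : ℤ,
        (V : ℚ) ^ ((m + 1) * T + 1) * (T.factorial : ℚ) *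
          (c i j l * ((g : ℚ) ^ l / (l.factorial : ℚ))) = z := by
      intro l hl
      rw [mem_range] at hl
      obtain ⟨z, hz⟩ := (hc i).int j l hl
      rw [hsum i] at hz
      have hlT : l ≤ T := by
        have := incT_le T i j
        omega
      obtain ⟨q, hq⟩ := Nat.factorial_dvd_factorial hlT
      have hl0 : (l.factorial : ℚ) ≠ 0 := by exact_mod_cast l.factorial_ne_zero
      refine ⟨(V : ℤ) ^ (l + 1) * z * (q : ℤ) * (g : ℤ) ^ l, ?_⟩
      push_cast
      rw [hq]
      push_cast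
      rw [← hz]
      field_simp
    choose! z hz using h1
    refine ⟨∑ l ∈ range (incT (fun _ => T) i j), z l, ?_⟩
    rw [mul_sum]
    push_cast
    exact sum_congr rfl hz
  choose B hB using hint
  have hV0' : (0 : ℚ) < V := by exact_mod_cast hV0
  have hf0' : (0 : ℚ) < (T.factorial : ℚ) := by exact_mod_cast T.factorial_pos
  have hV0R : (0 : ℝ) < V := by exact_mod_cast hV0
  have hf0R : (0 : ℝ) < (T.factorial : ℝ) := by exact_mod_cast T.factorial_pos
  have hgR : (1 : ℝ) ≤ g := by exact_mod_cast hg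
  have hBR : ∀ i j, (B i j : ℝ) = (V : ℝ) ^ ((m + 1) * T + 1) * (T.factorial : ℝ) *
        ∑ l ∈ range (incT (fun _ => T) i j), (c i j l : ℝ) * ((g : ℝ) ^ l / (l.factorial : ℝ)) := by
    intro i j
    have h : (((V : ℚ) ^ ((m + 1) * T + 1) * (T.factorial : ℚ) *
        ∑ l ∈ range (incT (fun _ => T) i j), c i j l * ((g : ℚ) ^ l / (l.factorial : ℚ)) : ℚ) : ℝ)
        = ((B i j : ℚ) : ℝ) := by rw [hB i j]
    push_cast at h
    exact h.symm
  refine ⟨Matrix.of B, ?_, ?_, ?_⟩
  · -- determinant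
    have hdet := det_hp_ne_zero w V W T c hc (g : ℚ) (by
      have : (0 : ℚ) < g := by exact_mod_cast hg
      exact this.ne')
    intro h0
    apply hdet
    have h1 : (Matrix.of B).map (Int.cast : ℤ → ℚ) =
        ((V : ℚ) ^ ((m + 1) * T + 1) * (T.factorial : ℚ)) •
          (Matrix.of fun i j => ∑ l ∈ range (incT (fun _ => T) i j),
            c i j l * ((g : ℚ) ^ l / (l.factorial : ℚ))) := by
      ext i j
      simp only [Matrix.map_apply, Matrix.of_apply, Matrix.smul_apply, smul_eq_mul]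
      exact (hB i j).symm
    have h2 : ((Matrix.of B).map (Int.cast : ℤ → ℚ)).det = 0 := by
      have h4 := (Int.castRingHom ℚ).map_det (Matrix.of B)
      rw [h0, map_zero] at h4
      exact h4.symm
    rw [h1, Matrix.det_smul] at h2
    have h3 : ((V : ℚ) ^ ((m + 1) * T + 1) * (T.factorial : ℚ)) ^ Fintype.card (Fin (m + 1)) ≠ 0 := by
      positivity
    exact (mul_eq_zero.1 h2).resolve_left h3
  · intro i j
    rw [Matrix.of_apply, hBR, abs_mul, abs_of_nonneg (by positivity)]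
    unfold bndH
    rw [mul_assoc ((V : ℝ) ^ ((m + 1) * T + 1) * (T.factorial : ℝ))]
    refine mul_le_mul_of_nonneg_left ?_ (by positivity)
    have hn := (hc i).norm
    rw [hsum i] at hn
    have hnR : ∑ j, ∑ l ∈ range (incT (fun _ => T) i j), |(c i j l : ℝ)| * 2 ^ (l + 1) ≤
        2 ^ ((m + 1) * T + 1) := by
      exact_mod_cast hn
    have h1 : ∑ l ∈ range (incT (fun _ => T) i j), |(c i j l : ℝ)| * 2 ^ (l + 1) ≤
        2 ^ ((m + 1) * T + 1) := by
      refine le_trans ?_ hnR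
      exact single_le_sum (f := fun j => ∑ l ∈ range (incT (fun _ => T) i j),
        |(c i j l : ℝ)| * 2 ^ (l + 1)) (fun j _ => sum_nonneg fun l _ => by positivity) (mem_univ j)
    calc |∑ l ∈ range (incT (fun _ => T) i j), (c i j l : ℝ) * ((g : ℝ) ^ l / (l.factorial : ℝ))|
        ≤ ∑ l ∈ range (incT (fun _ => T) i j),
          |(c i j l : ℝ) * ((g : ℝ) ^ l / (l.factorial : ℝ))| := abs_sum_le_sum_abs _ _
      _ ≤ ∑ l ∈ range (incT (fun _ => T) i j), |(c i j l : ℝ)| * 2 ^ (l + 1) * (g : ℝ) ^ T := by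
          refine sum_le_sum fun l hl => ?_
          rw [mem_range] at hl
          have hlT : l ≤ T := by
            have := incT_le T i j
            omega
          rw [abs_mul, mul_assoc]
          refine mul_le_mul_of_nonneg_left ?_ (abs_nonneg _)
          rw [abs_of_nonneg (by positivity)]
          have h2 : (g : ℝ) ^ l / (l.factorial : ℝ) ≤ (g : ℝ) ^ T := by
            rw [div_le_iff₀ (by positivity)]
            have h3 : (g : ℝ) ^ l ≤ (g : ℝ) ^ T := pow_le_pow_right₀ hgR hlT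
            have h4 : (1 : ℝ) ≤ (l.factorial : ℝ) := by exact_mod_cast l.factorial_pos
            have h5 : (0 : ℝ) ≤ (g : ℝ) ^ T := by positivity
            nlinarith
          refine h2.trans ?_
          have h6 : (1 : ℝ) ≤ 2 ^ (l + 1) := one_le_pow₀ (by norm_num)
          have h5 : (0 : ℝ) ≤ (g : ℝ) ^ T := by positivity
          nlinarith
      _ = (∑ l ∈ range (incT (fun _ => T) i j), |(c i j l : ℝ)| * 2 ^ (l + 1)) * (g : ℝ) ^ T := by
          rw [sum_mul]
      _ ≤ 2 ^ ((m + 1) * T + 1) * (g : ℝ) ^ T :=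
          mul_le_mul_of_nonneg_right h1 (by positivity)
  · intro i
    have hr := remainder_bound w V W (incT (fun _ => T) i) (c i) (hc i) ((m + 1) * T) (hsum i)
      (g : ℝ) (by positivity)
    have h1 : ∑ j, ((Matrix.of B) i j : ℝ) * Real.exp (w j * g) =
        (V : ℝ) ^ ((m + 1) * T + 1) * (T.factorial : ℝ) *
          ∑ j, (∑ l ∈ range (incT (fun _ => T) i j), (c i j l : ℝ) * ((g : ℝ) ^ l / (l.factorial : ℝ))) *
            Real.exp (w j * g) := by
      rw [mul_sum]
      refine sum_congr rfl fun j _ => ?_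
      rw [Matrix.of_apply, hBR]
      ring
    rw [h1, abs_mul, abs_of_nonneg (by positivity)]
    unfold bndL
    exact mul_le_mul_of_nonneg_left hr (by positivity)

/-- For every nonzero integer vector some form of an invertible integer matrix does not vanish. -/
theorem exists_form_ne_zero {m : ℕ} (B : Matrix (Fin (m + 1)) (Fin (m + 1)) ℤ) (hB : B.det ≠ 0)
    (x : Fin (m + 1) → ℤ) (hx : x ≠ 0) : ∃ i, (1 : ℝ) ≤ |∑ j, (B i j : ℝ) * (x j : ℝ)| := by
  by_contra hcon
  push Not at hcon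
  apply hx
  refine Matrix.eq_zero_of_mulVec_eq_zero hB ?_
  funext i
  have h1 := hcon i
  have h2 : ((∑ j, B i j * x j : ℤ) : ℝ) = ∑ j, (B i j : ℝ) * (x j : ℝ) := by push_cast; rfl
  rw [← h2] at h1
  have h3 : |∑ j, B i j * x j| < 1 := by exact_mod_cast h1
  have h4 := Int.abs_lt_one_iff.1 h3
  simpa [Matrix.mulVec, dotProduct] using h4

/-- Main inequality: if the integers `x_j`, not all zero, satisfy `|x_j - F e^{w_j g}| ≤ η`, then
`1 ≤ |F| bndL + (m+1) bndH η`. -/
theorem main_ineq {m : ℕ} (w : Fin (m + 1) → ℕ) (hw : Function.Injective w) (V W T g : ℕ)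
    (hV0 : 0 < V) (hV : ∀ i j, i ≠ j → ((w i : ℤ) - (w j : ℤ)) ∣ (V : ℤ)) (hW : ∀ j, w j ≤ W)
    (hT : 1 ≤ T) (hg : 1 ≤ g) (x : Fin (m + 1) → ℤ) (hx : x ≠ 0) (F η : ℝ) (hF : 0 ≤ F)
    (hη : ∀ j, |(x j : ℝ) - F * Real.exp (w j * g)| ≤ η) :
    1 ≤ F * bndL V m T g W + (m + 1) * bndH V m T g * η := by
  obtain ⟨B, hdet, hH, hL⟩ := hermite_pade w hw V W T g hV0 hV hW hT hg
  obtain ⟨i, hi⟩ := exists_form_ne_zero B hdet x hx
  have h1 : ∑ j, (B i j : ℝ) * (x j : ℝ) =
      F * ∑ j, (B i j : ℝ) * Real.exp (w j * g) +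
        ∑ j, (B i j : ℝ) * ((x j : ℝ) - F * Real.exp (w j * g)) := by
    rw [mul_sum, ← sum_add_distrib]
    refine sum_congr rfl fun j _ => ?_
    ring
  rw [h1] at hi
  have hη0 : 0 ≤ η := (abs_nonneg _).trans (hη 0)
  have hH0 : 0 ≤ bndH V m T g := (abs_nonneg _).trans (hH 0 0)
  refine hi.trans ((abs_add_le _ _).trans (add_le_add ?_ ?_))
  · rw [abs_mul, abs_of_nonneg hF]
    exact mul_le_mul_of_nonneg_left (hL i) hF
  · refine (abs_sum_le_sum_abs _ _).trans ?_
    calc ∑ j, |(B i j : ℝ) * ((x j : ℝ) - F * Real.exp (w j * g))|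
        ≤ ∑ _j : Fin (m + 1), bndH V m T g * η := by
          refine sum_le_sum fun j _ => ?_
          rw [abs_mul]
          exact mul_le_mul (hH i j) (hη j) (abs_nonneg _) hH0
      _ = (m + 1) * bndH V m T g * η := by
          rw [sum_const, card_univ, Fintype.card_fin, nsmul_eq_mul]
          push_cast
          ring

end Pool.Agent.Lib.MP_ccb155_nt
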