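import Pool.Agent.Lib.MP_ccb155_nt.Good

set_option autoImplicit false

open Finset

namespace Pool.Agent.Lib.MP_ccb155_nt

lemma hasSum_term (h k : ℝ) (s : ℕ) :
    HasSum (fun N : ℕ => ((N.choose s : ℝ) * h ^ (N - s)) * (k ^ N / N.factorial))
      (k ^ s / s.factorial * Real.exp (h * k)) := by
  have h1 : HasSum (fun n : ℕ => (h * k) ^ n / n.factorial) (Real.exp (h * k)) := by
    rw [Real.exp_eq_exp_ℝ]
    exact NormedSpace.expSeries_div_hasSum_exp (h * k)
  have h2 := h1.mul_left (k ^ s / s.factorial)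
  rw [← hasSum_nat_add_iff' s]
  have h3 : ∑ i ∈ range s, ((i.choose s : ℝ) * h ^ (i - s)) * (k ^ i / i.factorial) = 0 := by
    apply Finset.sum_eq_zero
    intro i hi
    rw [mem_range] at hi
    rw [Nat.choose_eq_zero_of_lt hi]
    simp
  rw [h3, sub_zero]
  suffices hfun : (fun n : ℕ => (((n + s).choose s : ℝ) * h ^ (n + s - s)) *
      (k ^ (n + s) / (n + s).factorial)) =
      fun n : ℕ => k ^ s / s.factorial * ((h * k) ^ n / n.factorial) by
    rw [hfun]; exact h2
  funext n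
  rw [Nat.add_sub_cancel]
  have h4 : (((n + s).choose s : ℕ) : ℝ) = (n + s).factorial / (s.factorial * n.factorial) := by
    rw [add_comm n s, Nat.cast_add_choose]
  rw [h4]
  have e1 : ((n + s).factorial : ℝ) ≠ 0 := by positivity
  have e2 : (s.factorial : ℝ) ≠ 0 := by positivity
  have e3 : (n.factorial : ℝ) ≠ 0 := by positivity
  field_simp
  ring

variable {ι : Type*} [Fintype ι] [DecidableEq ι]

/-- the polynomial coefficients of the linear form, evaluated at k -/
noncomputable def PP (h : ι → ℤ) (q : ι → ℕ) (i : ι) (k : ℝ) : ℝ :=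
  ∑ s ∈ range (q i), (cc h q i s : ℝ) * (k ^ s / s.factorial)

/-- the linear form -/
noncomputable def RR (h : ι → ℤ) (q : ι → ℕ) (k : ℝ) : ℝ :=
  ∑ i, PP h q i k * Real.exp (h i * k)

noncomputable def aa (h : ι → ℤ) (q : ι → ℕ) (N : ℕ) : ℝ :=
  ∑ i, ∑ s ∈ range (q i), (cc h q i s : ℝ) * ((N.choose s : ℝ) * (h i : ℝ) ^ (N - s))

lemma hasSum_RR (h : ι → ℤ) (q : ι → ℕ) (k : ℝ) :
    HasSum (fun N : ℕ => aa h q N * (k ^ N / N.factorial)) (RR h q k) := by
  have h1 : RR h q k = ∑ i, ∑ s ∈ range (q i),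
      (cc h q i s : ℝ) * (k ^ s / s.factorial * Real.exp (h i * k)) := by
    unfold RR PP
    apply Finset.sum_congr rfl
    intro i _
    rw [Finset.sum_mul]
    apply Finset.sum_congr rfl
    intro s _
    ring
  rw [h1]
  have h2 : (fun N : ℕ => aa h q N * (k ^ N / N.factorial)) = fun N : ℕ => ∑ i, ∑ s ∈ range (q i),
      (cc h q i s : ℝ) * (((N.choose s : ℝ) * (h i : ℝ) ^ (N - s)) * (k ^ N / N.factorial)) := by
    funext N
    unfold aa
    rw [Finset.sum_mul]
    apply Finset.sum_congr rfl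
    intro i _
    rw [Finset.sum_mul]
    apply Finset.sum_congr rfl
    intro s _
    ring
  rw [h2]
  apply hasSum_sum
  intro i _
  apply hasSum_sum
  intro s _
  exact (hasSum_term (h i : ℝ) k s).mul_left _

lemma aa_zero {h : ι → ℤ} (hh : Function.Injective h) {T : ℕ} {q : ι → ℕ}
    (hq : ∑ i, q i = T + 1) {N : ℕ} (hN : N < T) : aa h q N = 0 := by
  have h1 := cc_moments hh hq hN
  have h2 := congrArg (fun x : ℚ => (x : ℝ)) h1
  push_cast at h2
  unfold aa
  exact h2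

lemma aa_bound {Δ : ℤ} {h : ι → ℤ} {q : ι → ℕ} {T L : ℕ} (hT : ∑ i, q i = T) (hL : 1 ≤ L)
    (hh : ∀ i, |h i| ≤ L) (hΔ : ∀ i l, l ≠ i → h i - h l ∣ Δ ∧ h i - h l ≠ 0) (N : ℕ) :
    |aa h q N| ≤ T * 2 ^ T * (2 * L) ^ N := by
  unfold aa
  have hL' : (1 : ℝ) ≤ L := by exact_mod_cast hL
  calc |∑ i, ∑ s ∈ range (q i), (cc h q i s : ℝ) * ((N.choose s : ℝ) * (h i : ℝ) ^ (N - s))|
      ≤ ∑ i, ∑ s ∈ range (q i),
        |(cc h q i s : ℝ) * ((N.choose s : ℝ) * (h i : ℝ) ^ (N - s))| := by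
        refine (Finset.abs_sum_le_sum_abs _ _).trans (Finset.sum_le_sum fun i _ => ?_)
        exact Finset.abs_sum_le_sum_abs _ _
    _ ≤ ∑ i, ∑ s ∈ range (q i), (2 ^ T * (2 * L) ^ N : ℝ) := by
        refine Finset.sum_le_sum fun i _ => Finset.sum_le_sum fun s hs => ?_
        rw [mem_range] at hs
        rw [abs_mul, abs_mul, abs_pow, Nat.abs_cast]
        have h1 : |(cc h q i s : ℝ)| ≤ 2 ^ T := by
          have := cc_abs (Δ := Δ) hT hs (hΔ i)
          exact_mod_cast this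
        have h2 : ((N.choose s : ℕ) : ℝ) ≤ 2 ^ N := by
          exact_mod_cast Nat.choose_le_two_pow N s
        have h3 : |(h i : ℝ)| ^ (N - s) ≤ (L : ℝ) ^ N := by
          have h4 : |(h i : ℝ)| ≤ L := by exact_mod_cast hh i
          calc |(h i : ℝ)| ^ (N - s) ≤ (L : ℝ) ^ (N - s) := pow_le_pow_left₀ (abs_nonneg _) h4 _
            _ ≤ (L : ℝ) ^ N := pow_le_pow_right₀ hL' (Nat.sub_le _ _)
        rw [mul_pow]
        exact mul_le_mul h1 (mul_le_mul h2 h3 (by positivity) (by positivity))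
          (by positivity) (by positivity)
    _ = T * 2 ^ T * (2 * L) ^ N := by
        rw [← hT]
        simp only [Finset.sum_const, card_range, nsmul_eq_mul]
        rw [← Finset.sum_mul]
        push_cast
        ring

/-- smallness of the linear form -/
lemma RR_small {Δ : ℤ} {h : ι → ℤ} (hinj : Function.Injective h) {q : ι → ℕ} {T L : ℕ}
    (hT : ∑ i, q i = T + 1) (hL : 1 ≤ L)
    (hh : ∀ i, |h i| ≤ L) (hΔ : ∀ i l, l ≠ i → h i - h l ∣ Δ ∧ h i - h l ≠ 0) {k : ℝ}
    (hk : 0 ≤ k) :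
    |RR h q k| ≤ (T + 1) * 2 ^ (T + 1) * ((2 * L * k) ^ T / T.factorial) *
      Real.exp (2 * L * k) := by
  have h0 := hasSum_RR h q k
  rw [← hasSum_nat_add_iff' T] at h0
  have hz : ∑ i ∈ range T, aa h q i * (k ^ i / i.factorial) = 0 := by
    apply Finset.sum_eq_zero
    intro i hi
    rw [mem_range] at hi
    rw [aa_zero hinj hT hi, zero_mul]
  rw [hz, sub_zero] at h0
  have h1 : HasSum (fun n : ℕ => ((T + 1) * 2 ^ (T + 1) * ((2 * L * k) ^ T / T.factorial)) *
      ((2 * L * k) ^ n / n.factorial))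
      ((T + 1) * 2 ^ (T + 1) * ((2 * L * k) ^ T / T.factorial) * Real.exp (2 * L * k)) := by
    apply HasSum.mul_left
    rw [Real.exp_eq_exp_ℝ]
    exact NormedSpace.expSeries_div_hasSum_exp (2 * L * k)
  rw [← h0.tsum_eq, ← Real.norm_eq_abs]
  apply tsum_of_norm_bounded h1
  intro n
  rw [Real.norm_eq_abs, abs_mul]
  have h2 := aa_bound (Δ := Δ) hT hL hh hΔ (n + T)
  have h3 : |k ^ (n + T) / (n + T).factorial| = k ^ (n + T) / (n + T).factorial :=
    abs_of_nonneg (by positivity)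
  rw [h3]
  have h4 : ((T.factorial : ℝ) * n.factorial) ≤ (n + T).factorial := by
    have := Nat.le_of_dvd (Nat.factorial_pos _) (Nat.factorial_mul_factorial_dvd_factorial_add T n)
    rw [add_comm n T]
    exact_mod_cast this
  calc |aa h q (n + T)| * (k ^ (n + T) / (n + T).factorial)
      ≤ (((T + 1 : ℕ) : ℝ) * 2 ^ (T + 1) * (2 * L) ^ (n + T)) *
        (k ^ (n + T) / (T.factorial * n.factorial)) := by
        gcongr
    _ = _ := by
        push_cast
        rw [mul_pow (2 * (L : ℝ)) k T, mul_pow (2 * (L : ℝ)) k n, pow_add, pow_add]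
        field_simp
        ring

/-- size of the coefficients of the linear form -/
lemma PP_bound {Δ : ℤ} {h : ι → ℤ} {q : ι → ℕ} {T : ℕ} (hT : ∑ i, q i = T)
    (hΔ : ∀ i l, l ≠ i → h i - h l ∣ Δ ∧ h i - h l ≠ 0) {k : ℝ} (hk : 0 ≤ k) (i : ι) :
    |PP h q i k| ≤ 2 ^ T * Real.exp k := by
  unfold PP
  calc |∑ s ∈ range (q i), (cc h q i s : ℝ) * (k ^ s / s.factorial)|
      ≤ ∑ s ∈ range (q i), 2 ^ T * (k ^ s / s.factorial) := by
        refine (Finset.abs_sum_le_sum_abs _ _).trans (Finset.sum_le_sum fun s hs => ?_)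
        rw [mem_range] at hs
        rw [abs_mul, abs_of_nonneg (show (0 : ℝ) ≤ k ^ s / s.factorial by positivity)]
        have h1 : |(cc h q i s : ℝ)| ≤ 2 ^ T := by
          have := cc_abs (Δ := Δ) hT hs (hΔ i)
          exact_mod_cast this
        gcongr
    _ = 2 ^ T * ∑ s ∈ range (q i), (k ^ s / s.factorial) := by rw [Finset.mul_sum]
    _ ≤ 2 ^ T * Real.exp k := by
        gcongr
        exact Real.sum_le_exp_of_nonneg hk _

end Pool.Agent.Lib.MP_ccb155_nt
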