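import Mathlib

set_option autoImplicit false

open Finset Filter Topology

namespace Pool.Agent.Lib.MP_ccb155_nt

lemma ev_log_le (ε : ℝ) (hε : 0 < ε) : ∀ᶠ n : ℕ in atTop, Real.log n ≤ ε * n := by
  have h1 : Tendsto (fun x : ℝ => Real.log x / x) atTop (𝓝 0) := by
    have := Real.isLittleO_log_id_atTop.tendsto_div_nhds_zero
    simpa using this
  have h2 := (h1.comp tendsto_natCast_atTop_atTop).eventually (gt_mem_nhds hε)
  filter_upwards [h2, eventually_gt_atTop 0] with n hn hn0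
  have : (0 : ℝ) < n := by exact_mod_cast hn0
  simp only [Function.comp_apply] at hn
  rw [div_lt_iff₀ this] at hn
  exact hn.le

lemma ev_div_log_le (y ε : ℝ) (hy : 0 < y) (hε : 0 < ε) :
    ∀ᶠ n : ℕ in atTop, y * n / Real.log n ≤ ε * n := by
  have h1 : Tendsto (fun n : ℕ => Real.log (n : ℝ)) atTop atTop :=
    Real.tendsto_log_atTop.comp tendsto_natCast_atTop_atTop
  filter_upwards [h1.eventually_ge_atTop (y / ε), h1.eventually_gt_atTop 0] with n hn hn0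
  rw [div_le_iff₀ hn0]
  rw [div_le_iff₀ hε] at hn
  have : (0 : ℝ) ≤ n := by positivity
  nlinarith

lemma ev_rpow_le (C τ ε : ℝ) (hC : 0 < C) (hτ : τ < 1) (hε : 0 < ε) :
    ∀ᶠ n : ℕ in atTop, C * (n : ℝ) ^ τ ≤ ε * n := by
  have h1 : Tendsto (fun x : ℝ => x ^ (-(1 - τ))) atTop (𝓝 0) :=
    tendsto_rpow_neg_atTop (by linarith)
  have h2 := (h1.comp tendsto_natCast_atTop_atTop).eventually
    (gt_mem_nhds (show (0 : ℝ) < ε / C by positivity))
  filter_upwards [h2, eventually_gt_atTop 0] with n hn hn0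
  have hn' : (0 : ℝ) < n := by exact_mod_cast hn0
  simp only [Function.comp_apply] at hn
  rw [lt_div_iff₀ hC] at hn
  have h3 : (n : ℝ) ^ τ = (n : ℝ) ^ (-(1 - τ)) * n := by
    nth_rewrite 3 [← Real.rpow_one (n : ℝ)]
    rw [← Real.rpow_add hn']
    congr 1; ring
  rw [h3]
  nlinarith

lemma ev_pow_log (y ε : ℝ) (hy : 0 < y) (hε : 0 < ε) :
    ∀ᶠ n : ℕ in atTop, (n : ℝ) ^ (1 - ε) ≤ y * n / Real.log n := by
  have h1 : Tendsto (fun x : ℝ => Real.log x / x ^ ε) atTop (𝓝 0) :=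
    (isLittleO_log_rpow_atTop hε).tendsto_div_nhds_zero
  have h2 := (h1.comp tendsto_natCast_atTop_atTop).eventually (gt_mem_nhds hy)
  have h3 : Tendsto (fun n : ℕ => Real.log (n : ℝ)) atTop atTop :=
    Real.tendsto_log_atTop.comp tendsto_natCast_atTop_atTop
  filter_upwards [h2, h3.eventually_gt_atTop 0, eventually_gt_atTop 0] with n hn hlog hn0
  have hn' : (0 : ℝ) < n := by exact_mod_cast hn0
  simp only [Function.comp_apply] at hn
  have hpow : (0 : ℝ) < (n : ℝ) ^ ε := Real.rpow_pos_of_pos hn' _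
  rw [div_lt_iff₀ hpow] at hn
  rw [le_div_iff₀ hlog]
  have h4 : (n : ℝ) ^ (1 - ε) * (n : ℝ) ^ ε = n := by
    rw [← Real.rpow_add hn']
    simp
  have h5 : (0 : ℝ) < (n : ℝ) ^ (1 - ε) := Real.rpow_pos_of_pos hn' _
  calc (n : ℝ) ^ (1 - ε) * Real.log n ≤ (n : ℝ) ^ (1 - ε) * (y * (n : ℝ) ^ ε) := by gcongr
    _ = y * ((n : ℝ) ^ (1 - ε) * (n : ℝ) ^ ε) := by ring
    _ = y * n := by rw [h4]

lemma fin1 {P Q l δ Lg w e R y E Cst : ℝ} (hP : P ≤ w) (hQe : Q ≤ R * e)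
    (hQL : Q * Lg ≤ R * w) (he : 1 ≤ e) (hLe : Lg ≤ e) (hl : 0 ≤ l) (hδ : 0 ≤ δ) (hR : 1 ≤ R)
    (hy : 0 ≤ y)
    (hCst : Cst = 2 * (R - 1) * y + 4 * R + 2 * R * l + l + δ + 4) (hE : Cst * e ≤ E) :
    P + (Q + 1) * (l + δ * Lg) + (Q + 1) ≤ w + R * w * δ + E := by
  have e0 : 0 ≤ e := by linarith
  have e1 : Q * l ≤ R * e * l := mul_le_mul_of_nonneg_right hQe hl
  have e2 : l ≤ l * e := le_mul_of_one_le_right hl he
  have e3 : δ * (Q * Lg) ≤ δ * (R * w) := mul_le_mul_of_nonneg_left hQL hδ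
  have e4 : δ * Lg ≤ δ * e := mul_le_mul_of_nonneg_left hLe hδ
  have e5 : 0 ≤ 2 * (R - 1) * y * e := by
    have : 0 ≤ R - 1 := by linarith
    positivity
  have e6 : 0 ≤ R * l * e := by
    have : 0 ≤ R := by linarith
    positivity
  have e7 : 0 ≤ R * e := by
    have : 0 ≤ R := by linarith
    positivity
  have e8 : Cst * e = 2 * (R - 1) * y * e + 4 * (R * e) + 2 * (R * l * e) + l * e + δ * e + 4 * e := by
    rw [hCst]; ring
  have e9 : P + (Q + 1) * (l + δ * Lg) + (Q + 1) =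
      P + Q * l + l + δ * (Q * Lg) + δ * Lg + Q + 1 := by ring
  have e10 : R * e * l = R * l * e := by ring
  have e11 : δ * (R * w) = R * w * δ := by ring
  rw [e9]
  linarith

lemma fin2 {P Q l δ τ Lg w e R y E Cst ε1 : ℝ} (hP : (1 - ε1) ^ 2 * w ≤ P) (hQe : Q ≤ R * e)
    (hw : 0 ≤ w) (hε1 : 0 ≤ ε1)
    (hwe : ε1 * w = y * e)
    (hQL : Q * Lg ≤ R * w) (he : 1 ≤ e) (hLe : Lg ≤ e) (hl : 0 ≤ l) (hδ : 0 ≤ δ) (hτ : 0 ≤ τ)
    (hR : 1 ≤ R)
    (hCst : Cst = 2 * (R - 1) * y + 4 * R + 2 * R * l + l + δ + 4) (hE : Cst * e ≤ E) :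
    P + (Q + 1) * (l + δ * Lg) + ((Q + 1) + (Q + 1) + (Q * (l + τ * Lg) - (R * P - Q)) + e)
      ≤ -(R - 1) * w + R * w * (τ + δ) + E := by
  have e0 : 0 ≤ e := by linarith
  have hR1 : 0 ≤ R - 1 := by linarith
  have e1 : Q * l ≤ R * e * l := mul_le_mul_of_nonneg_right hQe hl
  have e2 : l ≤ l * e := le_mul_of_one_le_right hl he
  have e3 : δ * (Q * Lg) ≤ δ * (R * w) := mul_le_mul_of_nonneg_left hQL hδ
  have e3' : τ * (Q * Lg) ≤ τ * (R * w) := mul_le_mul_of_nonneg_left hQL hτ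
  have e4 : δ * Lg ≤ δ * e := mul_le_mul_of_nonneg_left hLe hδ
  have hP2 : (1 - 2 * ε1) * w ≤ P := by
    refine le_trans ?_ hP
    apply mul_le_mul_of_nonneg_right _ hw
    nlinarith
  have e5 : (R - 1) * ((1 - 2 * ε1) * w) ≤ (R - 1) * P := mul_le_mul_of_nonneg_left hP2 hR1
  have e6 : (R - 1) * ((1 - 2 * ε1) * w) = (R - 1) * w - 2 * (R - 1) * y * e := by
    have : (R - 1) * ((1 - 2 * ε1) * w) = (R - 1) * w - 2 * (R - 1) * (ε1 * w) := by ring
    rw [this, hwe]; ring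
  have e7 : 0 ≤ R * e := by
    have : 0 ≤ R := by linarith
    positivity
  have e8 : Cst * e = 2 * (R - 1) * y * e + 4 * (R * e) + 2 * (R * l * e) + l * e + δ * e + 4 * e := by
    rw [hCst]; ring
  have e9 : P + (Q + 1) * (l + δ * Lg) + ((Q + 1) + (Q + 1) + (Q * (l + τ * Lg) - (R * P - Q)) + e)
      = -((R - 1) * P) + 2 * (Q * l) + l + δ * (Q * Lg) + δ * Lg + τ * (Q * Lg) + 3 * Q + 2 + e := by
    ring
  have e10 : R * e * l = R * l * e := by ring
  have e11 : R * w * (τ + δ) = τ * (R * w) + δ * (R * w) := by ring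
  rw [e9, e11]
  linarith

lemma fac_lower {R p : ℕ} (hR : 1 ≤ R) (hp : 0 < p) :
    Real.exp (((R : ℝ) * p) * Real.log p - (R : ℝ) * p) ≤ ((R * p).factorial : ℝ) := by
  have hppos : (0 : ℝ) < p := by exact_mod_cast hp
  have hR' : (1 : ℝ) ≤ R := by exact_mod_cast hR
  have h1 : ((R * p : ℕ) : ℝ) ^ (R * p) / (R * p).factorial ≤ Real.exp ((R * p : ℕ) : ℝ) :=
    Real.pow_div_factorial_le_exp _ (by positivity) _
  have hfpos : (0 : ℝ) < ((R * p).factorial : ℝ) := by positivity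
  rw [div_le_iff₀ hfpos] at h1
  have hle : (p : ℝ) ≤ ((R * p : ℕ) : ℝ) := by
    push_cast
    exact le_mul_of_one_le_left hppos.le hR'
  have h3 : Real.exp (((R : ℝ) * p) * Real.log p) = (p : ℝ) ^ (R * p) := by
    have : (p : ℝ) ^ (R * p) = (Real.exp (Real.log p)) ^ (R * p) := by
      rw [Real.exp_log hppos]
    rw [this, ← Real.exp_nat_mul]
    push_cast
    rfl
  have h2 : Real.exp (((R : ℝ) * p) * Real.log p) ≤ ((R * p : ℕ) : ℝ) ^ (R * p) := by
    rw [h3]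
    exact pow_le_pow_left₀ hppos.le hle _
  have h4 : Real.exp (((R * p : ℕ) : ℝ)) = Real.exp ((R : ℝ) * p) := by push_cast; rfl
  rw [h4] at h1
  rw [Real.exp_sub, div_le_iff₀ (Real.exp_pos _)]
  calc Real.exp (((R : ℝ) * p) * Real.log p) ≤ Real.exp ((R : ℝ) * p) * (R * p).factorial :=
        h2.trans h1
    _ = (R * p).factorial * Real.exp ((R : ℝ) * p) := mul_comm _ _

/-- the analytic core: sizes of the quantities in the linear forms -/
theorem core (R : ℕ) (hR : 1 ≤ R) (y δ τ C0 : ℝ) (hy : 0 < y) (hδ : 0 ≤ δ) (hτ0 : 0 ≤ τ)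
    (hτ : τ < 1) (hC0 : 1 ≤ C0) (ε' : ℝ) (hε' : 0 < ε') :
    ∃ ε1 : ℝ, 0 < ε1 ∧ ε1 < 1 ∧ ∀ᶠ n : ℕ in atTop, ∀ p : ℕ,
      (1 - ε1) * (y * n / Real.log n) ≤ p → (p : ℝ) ≤ y * n / Real.log n →
      ∀ D Λ : ℝ, 0 ≤ D → D ≤ C0 * (n : ℝ) ^ δ → 0 ≤ Λ → Λ ≤ C0 * (n : ℝ) ^ τ →
      (p.factorial * D ^ (R * p + 1) * 2 ^ (R * p + 1) ≤ Real.exp ((y + R * y * δ + ε') * n)) ∧
      (p.factorial * D ^ (R * p + 1) * (((R * p : ℕ) + 1) * 2 ^ (R * p + 1) *
        (Λ ^ (R * p) / (R * p).factorial) * Real.exp Λ) ≤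
        Real.exp ((-(R - 1) * y + R * y * (τ + δ) + ε') * n)) := by
  have hlC : 0 ≤ Real.log C0 := Real.log_nonneg hC0
  have hR' : (1 : ℝ) ≤ R := by exact_mod_cast hR
  set Cst : ℝ := 2 * (R - 1) * y + 4 * R + 2 * R * Real.log C0 + Real.log C0 + δ + 4 with hCst
  have hCpos : 0 < Cst := by
    rw [hCst]
    have : 0 ≤ 2 * ((R : ℝ) - 1) * y := by nlinarith
    have : 0 ≤ 2 * R * Real.log C0 := by positivity
    linarith
  obtain ⟨ε1, hε1, hε11, hε1C⟩ : ∃ ε1 : ℝ, 0 < ε1 ∧ ε1 < 1 ∧ ε1 * Cst ≤ ε' := by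
    refine ⟨min (1 / 2) (ε' / Cst), by positivity, ?_, ?_⟩
    · exact lt_of_le_of_lt (min_le_left _ _) (by norm_num)
    · calc min (1 / 2) (ε' / Cst) * Cst ≤ (ε' / Cst) * Cst := by gcongr; exact min_le_right _ _
        _ = ε' := div_mul_cancel₀ _ hCpos.ne'
  refine ⟨ε1, hε1, hε11, ?_⟩
  have hlogt : Tendsto (fun n : ℕ => Real.log (n : ℝ)) atTop atTop :=
    Real.tendsto_log_atTop.comp tendsto_natCast_atTop_atTop
  have F4' := ev_pow_log ((1 - ε1) * y) ε1 (by nlinarith) hε1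
  have F5 : ∀ᶠ n : ℕ in atTop, (1 : ℝ) ≤ ε1 * n := by
    have := tendsto_natCast_atTop_atTop (R := ℝ)
    filter_upwards [this.eventually_ge_atTop (1 / ε1)] with n hn
    rw [div_le_iff₀ hε1] at hn
    linarith
  filter_upwards [ev_div_log_le y ε1 hy hε1, ev_rpow_le C0 τ ε1 (by linarith) hτ hε1,
    ev_log_le ε1 hε1, F4', hlogt.eventually_ge_atTop 1, F5, eventually_gt_atTop 0]
    with n F1 F2 F3 F4 hL1 F5 hn0
  intro p hp1 hp2 D Λ hD0 hD hΛ0 hΛ
  have hn : (0 : ℝ) < n := by exact_mod_cast hn0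
  set Lg := Real.log n with hLg
  have hLpos : 0 < Lg := by linarith
  set x := y * n / Lg with hx
  have hxpos : 0 < x := by positivity
  have hxL : x * Lg = y * n := by rw [hx]; field_simp
  have hp0 : (0 : ℝ) ≤ p := by positivity
  -- consequences
  have hpn : (p : ℝ) ≤ ε1 * n := hp2.trans F1
  have hpn' : (p : ℝ) ≤ n := by nlinarith
  have hpL : p * Lg ≤ y * n := by rw [← hxL]; gcongr
  have hpbig : (n : ℝ) ^ (1 - ε1) ≤ p := by
    refine F4.trans (le_trans (le_of_eq ?_) hp1)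
    rw [hx]; ring
  have hppos : (0 : ℝ) < p := lt_of_lt_of_le (Real.rpow_pos_of_pos hn _) hpbig
  have hlogp : (1 - ε1) * Lg ≤ Real.log p := by
    rw [hLg, ← Real.log_rpow hn]
    exact Real.log_le_log (Real.rpow_pos_of_pos hn _) hpbig
  have hplogp : (1 - ε1) ^ 2 * (y * n) ≤ p * Real.log p := by
    calc (1 - ε1) ^ 2 * (y * n) = ((1 - ε1) * x) * ((1 - ε1) * Lg) := by rw [← hxL]; ring
      _ ≤ p * Real.log p := by
        apply mul_le_mul hp1 hlogp
        · nlinarith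
        · positivity
  -- exponential forms
  have eC : C0 = Real.exp (Real.log C0) := (Real.exp_log (by linarith)).symm
  have hDe : D ^ (R * p + 1) ≤ Real.exp (((R : ℝ) * p + 1) * (Real.log C0 + δ * Lg)) := by
    have h1 : D ≤ Real.exp (Real.log C0 + δ * Lg) := by
      rw [Real.exp_add, ← eC]
      refine hD.trans (le_of_eq ?_)
      rw [Real.rpow_def_of_pos hn, hLg, mul_comm δ]
    calc D ^ (R * p + 1) ≤ (Real.exp (Real.log C0 + δ * Lg)) ^ (R * p + 1) :=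
          pow_le_pow_left₀ hD0 h1 _
      _ = Real.exp (((R : ℝ) * p + 1) * (Real.log C0 + δ * Lg)) := by
          rw [← Real.exp_nat_mul]; push_cast; ring_nf
  have hΛe : Λ ^ (R * p) ≤ Real.exp (((R : ℝ) * p) * (Real.log C0 + τ * Lg)) := by
    have h1 : Λ ≤ Real.exp (Real.log C0 + τ * Lg) := by
      rw [Real.exp_add, ← eC]
      refine hΛ.trans (le_of_eq ?_)
      rw [Real.rpow_def_of_pos hn, hLg, mul_comm τ]
    calc Λ ^ (R * p) ≤ (Real.exp (Real.log C0 + τ * Lg)) ^ (R * p) :=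
          pow_le_pow_left₀ hΛ0 h1 _
      _ = Real.exp (((R : ℝ) * p) * (Real.log C0 + τ * Lg)) := by
          rw [← Real.exp_nat_mul]; push_cast; ring_nf
  have h2e : (2 : ℝ) ^ (R * p + 1) ≤ Real.exp ((R : ℝ) * p + 1) := by
    have h1 : (2 : ℝ) ≤ Real.exp 1 := by have := Real.add_one_le_exp (1 : ℝ); linarith
    calc (2 : ℝ) ^ (R * p + 1) ≤ (Real.exp 1) ^ (R * p + 1) := pow_le_pow_left₀ (by norm_num) h1 _
      _ = Real.exp ((R : ℝ) * p + 1) := by
          rw [← Real.exp_nat_mul]; push_cast; ring_nf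
  have hTe : (((R * p : ℕ) : ℝ) + 1) ≤ Real.exp ((R : ℝ) * p + 1) := by
    have := Real.add_one_le_exp ((R : ℝ) * p)
    have h2 : Real.exp ((R : ℝ) * p) ≤ Real.exp ((R : ℝ) * p + 1) :=
      Real.exp_le_exp.2 (by linarith)
    push_cast
    linarith
  have hpf : (p.factorial : ℝ) ≤ Real.exp (p * Real.log p) := by
    have h1 : (p.factorial : ℝ) ≤ (p : ℝ) ^ p := by exact_mod_cast Nat.factorial_le_pow p
    refine h1.trans (le_of_eq ?_)
    nth_rewrite 1 [← Real.exp_log hppos]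
    rw [← Real.exp_nat_mul]
  have hpp : (0 : ℝ) ≤ p * Real.log p := le_trans (by positivity) hplogp
  have hlogpn : Real.log p ≤ Lg := by
    rw [hLg]; exact Real.log_le_log hppos hpn'
  have hplogp2 : p * Real.log p ≤ y * n :=
    le_trans (mul_le_mul_of_nonneg_left hlogpn hp0) hpL
  have hCE : Cst * (ε1 * n) ≤ ε' * n := by
    have : Cst * (ε1 * n) = (ε1 * Cst) * n := by ring
    rw [this]
    exact mul_le_mul_of_nonneg_right hε1C hn.le
  have hRp : (R : ℝ) * p ≤ R * (ε1 * n) := by gcongr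
  have hRpL : (R : ℝ) * p * Lg ≤ R * (y * n) := by
    rw [mul_assoc]; gcongr
  constructor
  · calc (p.factorial : ℝ) * D ^ (R * p + 1) * 2 ^ (R * p + 1)
        ≤ Real.exp (p * Real.log p) * Real.exp (((R : ℝ) * p + 1) * (Real.log C0 + δ * Lg)) *
          Real.exp ((R : ℝ) * p + 1) := by gcongr
      _ = Real.exp (p * Real.log p + ((R : ℝ) * p + 1) * (Real.log C0 + δ * Lg) +
          ((R : ℝ) * p + 1)) := by rw [← Real.exp_add, ← Real.exp_add]
      _ ≤ Real.exp ((y + R * y * δ + ε') * n) := by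
          apply Real.exp_le_exp.2
          have := fin1 hplogp2 hRp hRpL F5 F3 hlC hδ hR' hy.le hCst hCE
          refine this.trans (le_of_eq ?_)
          ring
  · have hfac := fac_lower hR (show 0 < p by exact_mod_cast hppos)
    have hfac' : Λ ^ (R * p) / (R * p).factorial ≤
        Real.exp (((R : ℝ) * p) * (Real.log C0 + τ * Lg) -
          (((R : ℝ) * p) * Real.log p - (R : ℝ) * p)) := by
      rw [Real.exp_sub]
      exact div_le_div₀ (Real.exp_pos _).le hΛe (Real.exp_pos _) hfac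
    have hΛ' : Real.exp Λ ≤ Real.exp (ε1 * n) := Real.exp_le_exp.2 (hΛ.trans F2)
    calc (p.factorial : ℝ) * D ^ (R * p + 1) * (((R * p : ℕ) + 1) * 2 ^ (R * p + 1) *
        (Λ ^ (R * p) / (R * p).factorial) * Real.exp Λ)
        ≤ Real.exp (p * Real.log p) * Real.exp (((R : ℝ) * p + 1) * (Real.log C0 + δ * Lg)) *
          (Real.exp ((R : ℝ) * p + 1) * Real.exp ((R : ℝ) * p + 1) *
          Real.exp (((R : ℝ) * p) * (Real.log C0 + τ * Lg) -
          (((R : ℝ) * p) * Real.log p - (R : ℝ) * p)) * Real.exp (ε1 * n)) := by gcongr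
      _ = Real.exp (p * Real.log p + ((R : ℝ) * p + 1) * (Real.log C0 + δ * Lg) +
          (((R : ℝ) * p + 1) + ((R : ℝ) * p + 1) +
          (((R : ℝ) * p) * (Real.log C0 + τ * Lg) -
          (((R : ℝ) * p) * Real.log p - (R : ℝ) * p)) + ε1 * n)) := by
          simp only [← Real.exp_add]
      _ ≤ Real.exp ((-(R - 1) * y + R * y * (τ + δ) + ε') * n) := by
          apply Real.exp_le_exp.2
          have h9 := fin2 (P := p * Real.log p) (w := y * n) hplogp hRp (by positivity) hε1.le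
            (by ring) hRpL F5 F3 hlC hδ hτ0 hR' hCst hCE
          have h10 : (R : ℝ) * p * Real.log p = R * (p * Real.log p) := by ring
          rw [h10]
          refine h9.trans (le_of_eq ?_)
          ring

end Pool.Agent.Lib.MP_ccb155_nt
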