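import Pool.Agent.Lib.MP_ccb155_nt.A5_HP

set_option autoImplicit false

namespace Pool.Agent.Lib.MP_ccb155_nt

open Finset

private theorem abs_pow_le_aux (R a : ℝ) (ha : |a| ≤ R) (k : ℕ) : |a ^ k| ≤ R ^ k := by
  rw [abs_pow]
  exact pow_le_pow_left₀ (abs_nonneg a) ha k

private theorem pow_sub_aux (R a x ε : ℝ) (ha : |a| ≤ R) (hx : |x| ≤ R) (hax : |a - x| ≤ ε)
    (k : ℕ) : |a ^ (k + 1) - x ^ (k + 1)| ≤ (k + 1) * R ^ k * ε := by
  have hR : 0 ≤ R := le_trans (abs_nonneg a) ha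
  have hε : 0 ≤ ε := le_trans (abs_nonneg _) hax
  induction k with
  | zero => simpa using hax
  | succ k ih =>
    have e : a ^ (k + 1 + 1) - x ^ (k + 1 + 1) =
        (a ^ (k + 1) - x ^ (k + 1)) * a + x ^ (k + 1) * (a - x) := by ring
    rw [e]
    have h1 : |(a ^ (k + 1) - x ^ (k + 1)) * a| ≤ ((k + 1) * R ^ k * ε) * R := by
      rw [abs_mul]
      exact mul_le_mul ih ha (abs_nonneg _) (by positivity)
    have h2 : |x ^ (k + 1) * (a - x)| ≤ R ^ (k + 1) * ε := by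
      rw [abs_mul]
      exact mul_le_mul (abs_pow_le_aux R x hx _) hax (abs_nonneg _) (by positivity)
    calc |(a ^ (k + 1) - x ^ (k + 1)) * a + x ^ (k + 1) * (a - x)|
        ≤ |(a ^ (k + 1) - x ^ (k + 1)) * a| + |x ^ (k + 1) * (a - x)| := abs_add_le _ _
      _ ≤ ((k + 1) * R ^ k * ε) * R + R ^ (k + 1) * ε := add_le_add h1 h2
      _ = ((k + 1 : ℕ) + 1) * R ^ (k + 1) * ε := by push_cast; ring

/-- `|∏ a_i - ∏ b_i| ≤ J R^{J-1} ε`, in the form needed. -/
theorem pow_mul_pow_sub_le (J j : ℕ) (hj : j ≤ J) (hJ : 1 ≤ J) (a b x y R ε : ℝ) (ha : |a| ≤ R)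
    (hb : |b| ≤ R) (hx : |x| ≤ R) (hy : |y| ≤ R) (hax : |a - x| ≤ ε) (hby : |b - y| ≤ ε) :
    |a ^ (J - j) * b ^ j - x ^ (J - j) * y ^ j| ≤ J * R ^ (J - 1) * ε := by
  have hR : 0 ≤ R := le_trans (abs_nonneg a) ha
  have hε : 0 ≤ ε := le_trans (abs_nonneg _) hax
  obtain ⟨i, rfl⟩ : ∃ i, J = i + j := ⟨J - j, by omega⟩
  rw [Nat.add_sub_cancel]
  have e : a ^ i * b ^ j - x ^ i * y ^ j = (a ^ i - x ^ i) * b ^ j + x ^ i * (b ^ j - y ^ j) := by
    ring
  have h1 : |(a ^ i - x ^ i) * b ^ j| ≤ i * R ^ (i + j - 1) * ε := by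
    rcases i with _ | i
    · simp
    · have e2 : i + 1 + j - 1 = i + j := by omega
      rw [e2, abs_mul]
      calc |a ^ (i + 1) - x ^ (i + 1)| * |b ^ j| ≤ ((i + 1) * R ^ i * ε) * R ^ j :=
            mul_le_mul (pow_sub_aux R a x ε ha hx hax i) (abs_pow_le_aux R b hb j) (abs_nonneg _)
              (by positivity)
        _ = ((i + 1 : ℕ) : ℝ) * R ^ (i + j) * ε := by push_cast; ring
  have h2 : |x ^ i * (b ^ j - y ^ j)| ≤ j * R ^ (i + j - 1) * ε := by
    rcases j with _ | j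
    · simp
    · have e2 : i + (j + 1) - 1 = i + j := by omega
      rw [e2, abs_mul]
      calc |x ^ i| * |b ^ (j + 1) - y ^ (j + 1)| ≤ R ^ i * ((j + 1) * R ^ j * ε) :=
            mul_le_mul (abs_pow_le_aux R x hx i) (pow_sub_aux R b y ε hb hy hby j) (abs_nonneg _)
              (by positivity)
        _ = ((j + 1 : ℕ) : ℝ) * R ^ (i + j) * ε := by push_cast; ring
  rw [e]
  calc |(a ^ i - x ^ i) * b ^ j + x ^ i * (b ^ j - y ^ j)|
      ≤ |(a ^ i - x ^ i) * b ^ j| + |x ^ i * (b ^ j - y ^ j)| := abs_add_le _ _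
    _ ≤ i * R ^ (i + j - 1) * ε + j * R ^ (i + j - 1) * ε := add_le_add h1 h2
    _ = ((i + j : ℕ) : ℝ) * R ^ (i + j - 1) * ε := by push_cast; ring

/-- Criterion B: `n` and `n + d` exceptional. Take `m = J`, `w_j = j`, `V = J!`, `W = J`, `g = d`,
`F = e^{Jn}`, `x_j = a^{J-j} b^j` with `a = round(e^n)`, `b = round(e^{n+d})`,
`η = J (2e^{n+d})^{J-1} e^{-cn}` in `main_ineq`. -/
theorem critB (c : ℝ) (hc : 0 < c) (J T n d : ℕ) (hJ : 1 ≤ J) (hT : 1 ≤ T) (hd : 1 ≤ d)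
    (h1 : Exc c n) (h2 : Exc c (n + d)) :
    1 ≤ Real.exp (J * n) * bndL J.factorial J T d J +
      (J + 1) * bndH J.factorial J T d *
        (J * (2 * Real.exp (n + d)) ^ (J - 1) * Real.exp (-(c * n))) := by
  have hn0 : (0 : ℝ) ≤ n := Nat.cast_nonneg n
  have hd0 : (0 : ℝ) ≤ d := Nat.cast_nonneg d
  have hen : (1 : ℝ) ≤ Real.exp n := Real.one_le_exp hn0
  have hend : (1 : ℝ) ≤ Real.exp (n + d) := Real.one_le_exp (by positivity)
  have hle : Real.exp n ≤ Real.exp (n + d) := Real.exp_le_exp.2 (by linarith)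
  have ha : |((round (Real.exp n) : ℤ) : ℝ) - Real.exp n| ≤ Real.exp (-(c * n)) := by
    rw [abs_sub_comm]; exact h1.2
  have h2' := h2.2
  push_cast at h2'
  have hb : |((round (Real.exp (n + d)) : ℤ) : ℝ) - Real.exp (n + d)| ≤ Real.exp (-(c * n)) := by
    rw [abs_sub_comm]
    refine le_trans h2' (Real.exp_le_exp.2 ?_)
    nlinarith [mul_nonneg hc.le hd0]
  have hra := abs_sub_round (Real.exp n)
  have hrb := abs_sub_round (Real.exp (n + d))
  rw [abs_le] at hra hrb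
  have haR : |((round (Real.exp n) : ℤ) : ℝ)| ≤ 2 * Real.exp (n + d) := by
    rw [abs_le]; constructor <;> linarith [hra.1, hra.2]
  have hbR : |((round (Real.exp (n + d)) : ℤ) : ℝ)| ≤ 2 * Real.exp (n + d) := by
    rw [abs_le]; constructor <;> linarith [hrb.1, hrb.2]
  have hxR : |Real.exp n| ≤ 2 * Real.exp (n + d) := by
    rw [abs_le]; constructor <;> linarith
  have hyR : |Real.exp (n + d)| ≤ 2 * Real.exp (n + d) := by
    rw [abs_le]; constructor <;> linarith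
  have ha0 : round (Real.exp n) ≠ 0 := by
    intro h0
    rw [h0] at hra
    norm_num at hra
    linarith [hra.2]
  refine main_ineq (m := J) (fun j => (j : ℕ)) Fin.val_injective J.factorial J T d
    (Nat.factorial_pos J) ?_ (fun j => Nat.lt_succ_iff.1 j.2) hT hd
    (fun j => (round (Real.exp n)) ^ (J - (j : ℕ)) * (round (Real.exp (n + d))) ^ (j : ℕ))
    ?_ (Real.exp (J * n)) _ (Real.exp_nonneg _) ?_
  · intro i j hij
    have hi := Nat.lt_succ_iff.1 i.2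
    have hj := Nat.lt_succ_iff.1 j.2
    have hne : (i : ℕ) ≠ (j : ℕ) := fun h => hij (Fin.ext h)
    rcases Nat.lt_or_gt_of_ne hne with h | h
    · have h3 : ((j : ℕ) - (i : ℕ)) ∣ J.factorial := Nat.dvd_factorial (by omega) (by omega)
      have h4 : (((j : ℕ) - (i : ℕ) : ℕ) : ℤ) ∣ (J.factorial : ℤ) := Int.natCast_dvd_natCast.2 h3
      rw [Nat.cast_sub h.le] at h4
      rw [← neg_dvd, neg_sub]
      exact h4
    · have h3 : ((i : ℕ) - (j : ℕ)) ∣ J.factorial := Nat.dvd_factorial (by omega) (by omega)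
      have h4 : (((i : ℕ) - (j : ℕ) : ℕ) : ℤ) ∣ (J.factorial : ℤ) := Int.natCast_dvd_natCast.2 h3
      rw [Nat.cast_sub h.le] at h4
      exact h4
  · intro h0
    have h3 := congrFun h0 0
    simp only [Fin.val_zero, Nat.sub_zero, pow_zero, mul_one, Pi.zero_apply] at h3
    exact ha0 (eq_zero_of_pow_eq_zero h3)
  · intro j
    have hj := Nat.lt_succ_iff.1 j.2
    have e1 : Real.exp (J * n) * Real.exp (((j : ℕ) : ℝ) * d) =
        Real.exp n ^ (J - (j : ℕ)) * Real.exp (n + d) ^ (j : ℕ) := by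
      rw [← Real.exp_nat_mul, ← Real.exp_nat_mul, ← Real.exp_add, ← Real.exp_add,
        Nat.cast_sub hj]
      congr 1
      ring
    rw [e1]
    push_cast
    exact pow_mul_pow_sub_le J j hj hJ _ _ _ _ _ _ haR hbR hxR hyR ha hb

end Pool.Agent.Lib.MP_ccb155_nt
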