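import Pool.Agent.Lib.MP_ccb155_nt.A5_HP
import Pool.Agent.Lib.MP_ccb155_nt.C0_Asymp

set_option autoImplicit false

namespace Pool.Agent.Lib.MP_ccb155_nt

open Filter Topology

private theorem c2_inv : Tendsto (fun n : ℕ => (1 : ℝ) / n) atTop (𝓝 0) :=
  tendsto_one_div_atTop_nhds_zero_nat

private theorem c2_fact (κ : ℝ) (hκ : 0 < κ) :
    Tendsto (fun n : ℕ => Real.log ((Tn κ n).factorial : ℝ) / n) atTop (𝓝 κ) := by
  have h := log_factorial_mul_Tn κ hκ 1 le_rfl
  simpa using h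

/-- First half of the asymptotics for criterion B, with the real number `n^θ` in place of `d`.
The logarithm divided by `n` tends to `J + κ + (J+1) κ θ - (J+1) κ`. -/
theorem ineqB1 (κ θ : ℝ) (hκ : 0 < κ) (hθ : 0 < θ) (hθ1 : θ < 1) (J : ℕ)
    (h : (J : ℝ) + κ + ((J : ℝ) + 1) * κ * θ - ((J : ℝ) + 1) * κ < 0) :
    ∀ᶠ n : ℕ in atTop, Real.exp (J * n) *
      (((J.factorial : ℝ) ^ ((J + 1) * Tn κ n + 1)) * ((Tn κ n).factorial : ℝ) *
        (((n : ℝ) ^ θ) ^ ((J + 1) * Tn κ n) / (((J + 1) * Tn κ n).factorial : ℝ) *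
          Real.exp (J * (n : ℝ) ^ θ))) < 1 / 2 := by
  have hJf : (0 : ℝ) < (J.factorial : ℝ) := by exact_mod_cast Nat.factorial_pos J
  refine eventually_lt_half _ ?_ _ h ?_
  · filter_upwards [eventually_ge_atTop 1] with n hn
    have hn0 : (0 : ℝ) < n := by exact_mod_cast hn
    have h1 : (0 : ℝ) < (n : ℝ) ^ θ := Real.rpow_pos_of_pos hn0 θ
    have h2 : (0 : ℝ) < ((Tn κ n).factorial : ℝ) := by exact_mod_cast Nat.factorial_pos _
    have h3 : (0 : ℝ) < (((J + 1) * Tn κ n).factorial : ℝ) := by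
      exact_mod_cast Nat.factorial_pos _
    positivity
  · have t1 := Tn_div κ hκ
    have t2 := Tn_mul_log κ hκ
    have t3 := c2_fact κ hκ
    have t4 := log_factorial_mul_Tn κ hκ (J + 1) (by omega)
    have t5 := rpow_div_tendsto θ hθ1
    have t6 := c2_inv
    have tt : Tendsto (fun n : ℕ => (J : ℝ) +
        (((J : ℝ) + 1) * ((Tn κ n : ℝ) / n) + (1 : ℝ) / n) * Real.log (J.factorial : ℝ) +
        Real.log ((Tn κ n).factorial : ℝ) / n +
        ((J : ℝ) + 1) * θ * ((Tn κ n : ℝ) * Real.log n / n) -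
        Real.log ((((J + 1) * Tn κ n).factorial : ℕ) : ℝ) / n + (J : ℝ) * ((n : ℝ) ^ θ / n))
        atTop (𝓝 ((J : ℝ) + (((J : ℝ) + 1) * 0 + 0) * Real.log (J.factorial : ℝ) + κ +
          ((J : ℝ) + 1) * θ * κ - (((J + 1 : ℕ) : ℝ) * κ) + (J : ℝ) * 0)) :=
      (((((tendsto_const_nhds.add (((t1.const_mul _).add t6).mul_const _)).add t3).add
        (t2.const_mul _)).sub t4).add (t5.const_mul _))
    have hlim : ((J : ℝ) + (((J : ℝ) + 1) * 0 + 0) * Real.log (J.factorial : ℝ) + κ +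
          ((J : ℝ) + 1) * θ * κ - (((J + 1 : ℕ) : ℝ) * κ) + (J : ℝ) * 0) =
        (J : ℝ) + κ + ((J : ℝ) + 1) * κ * θ - ((J : ℝ) + 1) * κ := by
      push_cast
      ring
    rw [hlim] at tt
    refine tt.congr' ?_
    filter_upwards [eventually_ge_atTop 1] with n hn
    have hn0 : (0 : ℝ) < n := by exact_mod_cast hn
    have h1 : (0 : ℝ) < (n : ℝ) ^ θ := Real.rpow_pos_of_pos hn0 θ
    have h2 : (0 : ℝ) < ((Tn κ n).factorial : ℝ) := by exact_mod_cast Nat.factorial_pos _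
    have h3 : (0 : ℝ) < (((J + 1) * Tn κ n).factorial : ℝ) := by
      exact_mod_cast Nat.factorial_pos _
    rw [Real.log_mul (Real.exp_pos _).ne' (by positivity), Real.log_exp,
      Real.log_mul (by positivity) (by positivity), Real.log_mul (by positivity) (by positivity),
      Real.log_mul (by positivity) (by positivity), Real.log_exp,
      Real.log_div (by positivity) (by positivity), Real.log_pow, Real.log_pow,
      Real.log_rpow hn0]
    push_cast
    field_simp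
    ring

/-- Second half: the logarithm divided by `n` tends to `κ + κ θ + (J - 1) - c`. -/
theorem ineqB2 (κ θ c : ℝ) (hκ : 0 < κ) (hθ : 0 < θ) (hθ1 : θ < 1) (J : ℕ) (hJ : 1 ≤ J)
    (h : κ + κ * θ + ((J : ℝ) - 1) - c < 0) :
    ∀ᶠ n : ℕ in atTop, ((J : ℝ) + 1) *
      (((J.factorial : ℝ) ^ ((J + 1) * Tn κ n + 1)) * ((Tn κ n).factorial : ℝ) *
        2 ^ ((J + 1) * Tn κ n + 1) * ((n : ℝ) ^ θ) ^ (Tn κ n)) *
      (J * (2 * Real.exp (n + (n : ℝ) ^ θ)) ^ (J - 1) * Real.exp (-(c * n))) < 1 / 2 := by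
  have hJf : (0 : ℝ) < (J.factorial : ℝ) := by exact_mod_cast Nat.factorial_pos J
  have hJ0 : (0 : ℝ) < J := by exact_mod_cast hJ
  refine eventually_lt_half _ ?_ _ h ?_
  · filter_upwards [eventually_ge_atTop 1] with n hn
    have hn0 : (0 : ℝ) < n := by exact_mod_cast hn
    have h1 : (0 : ℝ) < (n : ℝ) ^ θ := Real.rpow_pos_of_pos hn0 θ
    have h2 : (0 : ℝ) < ((Tn κ n).factorial : ℝ) := by exact_mod_cast Nat.factorial_pos _
    positivity
  · have t1 := Tn_div κ hκ
    have t2 := Tn_mul_log κ hκ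
    have t3 := c2_fact κ hκ
    have t5 := rpow_div_tendsto θ hθ1
    have t6 := c2_inv
    have tt : Tendsto (fun n : ℕ => (1 : ℝ) / n * (Real.log ((J : ℝ) + 1) + Real.log J +
          ((J : ℝ) - 1) * Real.log 2) +
        (((J : ℝ) + 1) * ((Tn κ n : ℝ) / n) + (1 : ℝ) / n) *
          (Real.log (J.factorial : ℝ) + Real.log 2) +
        Real.log ((Tn κ n).factorial : ℝ) / n +
        θ * ((Tn κ n : ℝ) * Real.log n / n) + ((J : ℝ) - 1) * (1 + (n : ℝ) ^ θ / n) - c)
        atTop (𝓝 (0 * (Real.log ((J : ℝ) + 1) + Real.log J +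
          ((J : ℝ) - 1) * Real.log 2) + (((J : ℝ) + 1) * 0 + 0) *
          (Real.log (J.factorial : ℝ) + Real.log 2) + κ + θ * κ + ((J : ℝ) - 1) * (1 + 0) - c)) :=
      ((((((t6.mul_const _).add (((t1.const_mul _).add t6).mul_const _)).add t3).add
        (t2.const_mul _)).add ((tendsto_const_nhds.add t5).const_mul _)).sub
          tendsto_const_nhds)
    have hlim : (0 * (Real.log ((J : ℝ) + 1) + Real.log J +
          ((J : ℝ) - 1) * Real.log 2) + (((J : ℝ) + 1) * 0 + 0) *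
          (Real.log (J.factorial : ℝ) + Real.log 2) + κ + θ * κ + ((J : ℝ) - 1) * (1 + 0) - c) =
        κ + κ * θ + ((J : ℝ) - 1) - c := by
      ring
    rw [hlim] at tt
    refine tt.congr' ?_
    filter_upwards [eventually_ge_atTop 1] with n hn
    have hn0 : (0 : ℝ) < n := by exact_mod_cast hn
    have h1 : (0 : ℝ) < (n : ℝ) ^ θ := Real.rpow_pos_of_pos hn0 θ
    have h2 : (0 : ℝ) < ((Tn κ n).factorial : ℝ) := by exact_mod_cast Nat.factorial_pos _
    have hJ1 : ((J - 1 : ℕ) : ℝ) = (J : ℝ) - 1 := by rw [Nat.cast_sub hJ]; simp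
    rw [Real.log_mul (by positivity) (by positivity), Real.log_mul (by positivity) (by positivity),
      Real.log_mul (by positivity) (by positivity), Real.log_mul (by positivity) (by positivity),
      Real.log_mul (by positivity) (by positivity), Real.log_mul (by positivity) (by positivity),
      Real.log_mul (by positivity) (by positivity), Real.log_exp, Real.log_pow, Real.log_pow,
      Real.log_pow, Real.log_pow, Real.log_mul (by norm_num) (Real.exp_pos _).ne', Real.log_exp,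
      Real.log_rpow hn0, hJ1]
    push_cast
    field_simp
    ring

/-- For `c > 6` and `θ = 1 - 6/c` there are `J`, `κ`: `J + 1 = κ = ⌈c/3⌉`. -/
theorem paramsB (c : ℝ) (hc : 6 < c) : ∃ (J : ℕ) (κ : ℝ), 1 ≤ J ∧ 0 < κ ∧
    (J : ℝ) + κ + ((J : ℝ) + 1) * κ * (1 - 6 / c) - ((J : ℝ) + 1) * κ < 0 ∧
    κ + κ * (1 - 6 / c) + ((J : ℝ) - 1) - c < 0 := by
  have hc0 : 0 < c := by linarith
  set X : ℕ := ⌈c / 3⌉₊ with hX
  have h1 : c / 3 ≤ X := Nat.le_ceil _
  have h2 : (X : ℝ) < c / 3 + 1 := Nat.ceil_lt_add_one (by positivity)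
  have hX2 : (2 : ℝ) < X := by linarith
  have hX3 : 3 ≤ X := by
    have : 2 < X := by exact_mod_cast hX2
    omega
  have hcast : ((X - 1 : ℕ) : ℝ) = (X : ℝ) - 1 := by rw [Nat.cast_sub (by omega)]; simp
  have h6 : 2 ≤ 6 * (X : ℝ) / c := by
    rw [le_div_iff₀ hc0]
    linarith
  refine ⟨X - 1, X, by omega, by linarith, ?_, ?_⟩
  · rw [hcast]
    have e : (X : ℝ) - 1 + X + ((X : ℝ) - 1 + 1) * X * (1 - 6 / c) - ((X : ℝ) - 1 + 1) * X =
        2 * X - 1 - X * (6 * (X : ℝ) / c) := by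
      field_simp
      ring
    rw [e]
    nlinarith
  · rw [hcast]
    have e : (X : ℝ) + X * (1 - 6 / c) + ((X : ℝ) - 1 - 1) - c =
        3 * X - 2 - 6 * (X : ℝ) / c - c := by
      field_simp
      ring
    rw [e]
    linarith

end Pool.Agent.Lib.MP_ccb155_nt
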