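import Mathlib

set_option autoImplicit false

open Finset Filter Topology

namespace Pool.Agent.Lib.MP_ccb155_nt

/-- the potential function grows by a constant over a window -/
lemma potential {θ n : ℝ} (hθ0 : 0 < θ) (hθ1 : θ < 1) (hn : 1 ≤ n) :
    n ^ θ + (2 ^ θ - 1) ≤ (n + n ^ (1 - θ)) ^ θ := by
  have hn0 : 0 < n := by linarith
  set u : ℝ := n ^ (-θ) with hu
  have hu0 : 0 < u := Real.rpow_pos_of_pos hn0 _
  have hu1 : u ≤ 1 := Real.rpow_le_one_of_one_le_of_nonpos hn (by linarith)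
  have h1 : n + n ^ (1 - θ) = n * (1 + u) := by
    have : n ^ (1 - θ) = n * u := by
      rw [hu]
      nth_rewrite 2 [← Real.rpow_one n]
      rw [← Real.rpow_add hn0]; congr 1
    rw [this]; ring
  have h2 : 1 + u * (2 ^ θ - 1) ≤ (1 + u) ^ θ := by
    have hc := (Real.concaveOn_rpow hθ0.le hθ1.le).2 (show (1 : ℝ) ∈ Set.Ici 0 by simp)
      (show (2 : ℝ) ∈ Set.Ici 0 by simp) (show 0 ≤ 1 - u by linarith) hu0.le (by ring)
    simp only [smul_eq_mul, Real.one_rpow] at hc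
    have h3 : (1 - u) * 1 + u * 2 = 1 + u := by ring
    rw [h3] at hc
    linarith
  rw [h1, Real.mul_rpow hn0.le (by linarith)]
  have h4 : n ^ θ * u = 1 := by
    rw [hu, ← Real.rpow_add hn0]; simp
  calc n ^ θ + (2 ^ θ - 1) = n ^ θ * 1 + (n ^ θ * u) * (2 ^ θ - 1) := by rw [h4]; ring
    _ = n ^ θ * (1 + u * (2 ^ θ - 1)) := by ring
    _ ≤ n ^ θ * (1 + u) ^ θ := by gcongr

open Classical in
/-- from short windows to counting -/
theorem count_of_windows (P : ℕ → Prop) (m n₀ : ℕ) {τ : ℝ} (hτ0 : 0 < τ) (hτ1 : τ < 1)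
    (hw : ∀ n : ℕ, n₀ ≤ n → ∀ S : Finset ℕ,
      (∀ k ∈ S, P k ∧ n ≤ k ∧ (k : ℝ) < n + (n : ℝ) ^ τ) → S.card ≤ m) :
    ∃ C : ℝ, ∀ N : ℕ, (((Finset.Icc 1 N).filter P).card : ℝ) ≤ C * (N : ℝ) ^ (1 - τ) := by
  obtain ⟨θ, hθ⟩ : ∃ θ : ℝ, θ = 1 - τ := ⟨_, rfl⟩
  have hθ0 : 0 < θ := by linarith
  have hθ1 : θ < 1 := by linarith
  have hτθ : τ = 1 - θ := by linarith
  set d : ℝ := 2 ^ θ - 1 with hd
  have hd0 : 0 < d := by
    have : (1 : ℝ) < 2 ^ θ := Real.one_lt_rpow (by norm_num) hθ0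
    linarith
  refine ⟨(n₀ + 1) + m * (1 / d + 1), fun N => ?_⟩
  rw [← hθ]
  rcases Nat.eq_zero_or_pos N with hN | hN
  · subst hN
    simp only [Nat.cast_zero, Real.zero_rpow hθ0.ne', mul_zero]
    simp
  have hN1 : (1 : ℝ) ≤ N := by exact_mod_cast hN
  have hNθ : (1 : ℝ) ≤ (N : ℝ) ^ θ := Real.one_le_rpow hN1 hθ0.le
  -- split
  set S := ((Finset.Icc (n₀ + 1) N).filter P) with hS
  have hsplit : ((Finset.Icc 1 N).filter P).card ≤ (n₀ + 1) + S.card := by
    have hsub : (Finset.Icc 1 N).filter P ⊆ Finset.range (n₀ + 1) ∪ S := by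
      intro x hx
      rw [mem_filter, mem_Icc] at hx
      rw [mem_union, mem_range, hS, mem_filter, mem_Icc]
      by_cases h : x < n₀ + 1
      · exact Or.inl h
      · exact Or.inr ⟨⟨by omega, hx.1.2⟩, hx.2⟩
    calc ((Finset.Icc 1 N).filter P).card ≤ _ := Finset.card_le_card hsub
      _ ≤ _ := Finset.card_union_le _ _
      _ = (n₀ + 1) + S.card := by rw [card_range]
  -- the map to the floor of the potential
  set f : ℕ → ℕ := fun n => ⌊(n : ℝ) ^ θ / d⌋₊ with hf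
  have hmaps : ∀ x ∈ S, f x ∈ Finset.range (⌊(N : ℝ) ^ θ / d⌋₊ + 1) := by
    intro x hx
    rw [hS, mem_filter, mem_Icc] at hx
    rw [mem_range, Nat.lt_succ_iff]
    apply Nat.floor_le_floor
    gcongr
    exact_mod_cast hx.1.2
  have hfib : ∀ v ∈ Finset.range (⌊(N : ℝ) ^ θ / d⌋₊ + 1),
      (S.filter (fun x => f x = v)).card ≤ m := by
    intro v _
    rcases Finset.eq_empty_or_nonempty (S.filter (fun x => f x = v)) with he | hne
    · rw [he]; simp
    · set n := (S.filter (fun x => f x = v)).min' hne with hn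
      have hnmem : n ∈ S.filter (fun x => f x = v) := Finset.min'_mem _ _
      rw [mem_filter, hS, mem_filter, mem_Icc] at hnmem
      obtain ⟨⟨⟨hn1, _⟩, _⟩, hfn⟩ := hnmem
      apply hw n (by omega)
      intro k hk
      have hnk : n ≤ k := Finset.min'_le _ _ hk
      rw [mem_filter, hS, mem_filter, mem_Icc] at hk
      refine ⟨hk.1.2, hnk, ?_⟩
      by_contra hcon
      push Not at hcon
      have hn1' : (1 : ℝ) ≤ n := by
        have : 1 ≤ n := by omega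
        exact_mod_cast this
      have h1 := potential hθ0 hθ1 hn1'
      rw [← hτθ] at h1
      have h2 : ((n : ℝ) + (n : ℝ) ^ τ) ^ θ ≤ (k : ℝ) ^ θ := by
        apply Real.rpow_le_rpow (by positivity) hcon hθ0.le
      have h3 : (n : ℝ) ^ θ / d + 1 ≤ (k : ℝ) ^ θ / d := by
        rw [div_add_one hd0.ne']
        gcongr
        linarith
      have h4 : (v : ℝ) ≤ (n : ℝ) ^ θ / d := by
        rw [← hfn, hf]; exact Nat.floor_le (by positivity)
      have h5 : (k : ℝ) ^ θ / d < v + 1 := by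
        rw [← hk.2, hf]; exact Nat.lt_floor_add_one _
      linarith
  have hcard : S.card ≤ m * (⌊(N : ℝ) ^ θ / d⌋₊ + 1) := by
    have := Finset.card_le_mul_card_image_of_maps_to hmaps m hfib
    rwa [card_range] at this
  have hfl : ((⌊(N : ℝ) ^ θ / d⌋₊ : ℕ) : ℝ) ≤ (N : ℝ) ^ θ / d := Nat.floor_le (by positivity)
  calc (((Finset.Icc 1 N).filter P).card : ℝ) ≤ ((n₀ + 1) + S.card : ℕ) := by exact_mod_cast hsplit
    _ ≤ (((n₀ + 1) + m * (⌊(N : ℝ) ^ θ / d⌋₊ + 1) : ℕ) : ℝ) := by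
        exact_mod_cast Nat.add_le_add_left hcard _
    _ = (n₀ + 1) + m * ((⌊(N : ℝ) ^ θ / d⌋₊ : ℕ) + 1) := by push_cast; ring
    _ ≤ (n₀ + 1) * (N : ℝ) ^ θ + m * ((N : ℝ) ^ θ / d + (N : ℝ) ^ θ) := by
        gcongr
        exact le_mul_of_one_le_right (by positivity) hNθ
    _ = ((n₀ + 1) + m * (1 / d + 1)) * (N : ℝ) ^ θ := by ring

end Pool.Agent.Lib.MP_ccb155_nt
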