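import Pool.Agent.Lib.MP_ccb155_nt.Analytic

set_option autoImplicit false

open Finset

namespace Pool.Agent.Lib.MP_ccb155_nt

variable {ι : Type*} [Fintype ι] [DecidableEq ι]

lemma det_ne_zero_of_mod {l : ℕ} (hl : l.Prime) (B : Matrix ι ι ℤ)
    (h1 : ∀ j i, i ≠ j → (l : ℤ) ∣ B j i) (h2 : ∀ j, ¬ (l : ℤ) ∣ B j j) : B.det ≠ 0 := by
  intro hdet
  have : Fact l.Prime := ⟨hl⟩
  have h3 : ((B.det : ℤ) : ZMod l) = ∏ j, ((B j j : ℤ) : ZMod l) := by
    have h4 := (Int.castRingHom (ZMod l)).map_det B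
    rw [eq_intCast] at h4
    rw [h4]
    have h5 : (Int.castRingHom (ZMod l)).mapMatrix B =
        Matrix.diagonal (fun j => ((B j j : ℤ) : ZMod l)) := by
      ext j i
      rw [RingHom.mapMatrix_apply, Matrix.map_apply, eq_intCast]
      by_cases hij : i = j
      · subst hij
        rw [Matrix.diagonal_apply_eq]
      · rw [Matrix.diagonal_apply_ne _ (Ne.symm hij)]
        exact (ZMod.intCast_zmod_eq_zero_iff_dvd _ l).2 (h1 j i hij)
    rw [h5, Matrix.det_diagonal]
  rw [hdet] at h3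
  have h6 : ∏ j, ((B j j : ℤ) : ZMod l) ≠ 0 := by
    rw [Finset.prod_ne_zero_iff]
    intro j _ h7
    exact h2 j ((ZMod.intCast_zmod_eq_zero_iff_dvd _ l).1 h7)
  apply h6
  rw [← h3]
  simp

/-- multiplicities -/
def qq (p : ℕ) (j i : ι) : ℕ := if i = j then p + 1 else p

lemma sum_qq (p : ℕ) (j : ι) : ∑ i, qq p j i = Fintype.card ι * p + 1 := by
  unfold qq
  have h1 : ∀ i : ι, (if i = j then p + 1 else p) = p + (if i = j then 1 else 0) := by
    intro i; split_ifs <;> rfl
  simp only [h1]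
  rw [Finset.sum_add_distrib]
  simp

lemma fact_div (p s : ℕ) (hs : s ≤ p) : (s.factorial : ℝ) * ((p.factorial / s.factorial : ℕ) : ℝ)
    = p.factorial := by
  have h1 : s.factorial * (p.factorial / s.factorial) = p.factorial :=
    Nat.mul_div_cancel' (Nat.factorial_dvd_factorial hs)
  exact_mod_cast h1

lemma dvd_fact_div (p s : ℕ) (hs : s < p) : p ∣ p.factorial / s.factorial := by
  obtain ⟨n, rfl⟩ : ∃ n, p = n + 1 := ⟨p - 1, by omega⟩
  rw [Nat.factorial_succ, Nat.mul_div_assoc _ (Nat.factorial_dvd_factorial (by omega))]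
  exact Nat.dvd_mul_right _ _

lemma entry {h : ι → ℤ} {Δ : ℤ} (hΔ : ∀ i l, l ≠ i → h i - h l ∣ Δ ∧ h i - h l ≠ 0)
    {k p l : ℕ} (hl : l.Prime) (hlp : l ∣ p) (hlk : ¬ l ∣ k) (hlΔ : ¬ (l : ℤ) ∣ Δ)
    (j i : ι) : ∃ z : ℤ, (z : ℝ) = p.factorial * (Δ : ℝ) ^ (Fintype.card ι * p + 1) *
      PP h (qq p j) i k ∧ (i ≠ j → (l : ℤ) ∣ z) ∧ (i = j → ¬ (l : ℤ) ∣ z) := by
  classical
  set T := Fintype.card ι * p + 1 with hT
  have hsum := sum_qq p j
  rw [← hT] at hsum
  -- the integers for each coefficient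
  have hint : ∀ s, ∃ z : ℤ, s < qq p j i → (Δ : ℚ) ^ T * cc h (qq p j) i s = z := by
    intro s
    by_cases hs : s < qq p j i
    · obtain ⟨z, hz⟩ := cc_int hsum hs (hΔ i)
      exact ⟨z, fun _ => hz⟩
    · exact ⟨0, fun h => absurd h hs⟩
  choose zz hzz using hint
  have hle : qq p j i ≤ p + 1 := by unfold qq; split_ifs <;> omega
  refine ⟨∑ s ∈ range (qq p j i), zz s * (k : ℤ) ^ s * ((p.factorial / s.factorial : ℕ) : ℤ),
    ?_, ?_, ?_⟩
  · unfold PP
    simp only [Int.cast_sum, Int.cast_mul, Int.cast_pow, Int.cast_natCast]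
    rw [Finset.mul_sum]
    apply Finset.sum_congr rfl
    intro s hs
    rw [mem_range] at hs
    have h1 : ((Δ : ℝ) ^ T * (cc h (qq p j) i s : ℝ)) = zz s := by
      have := congrArg (fun x : ℚ => (x : ℝ)) (hzz s hs)
      push_cast at this
      exact this
    have h2 := fact_div p s (by omega)
    have h3 : (s.factorial : ℝ) ≠ 0 := by positivity
    rw [← h1, ← h2]
    field_simp
  · intro hij
    apply Finset.dvd_sum
    intro s hs
    rw [mem_range] at hs
    have hq : qq p j i = p := by unfold qq; rw [if_neg hij]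
    rw [hq] at hs
    have h1 := dvd_fact_div p s hs
    have h2 : (l : ℤ) ∣ ((p.factorial / s.factorial : ℕ) : ℤ) := by
      exact_mod_cast hlp.trans h1
    exact Dvd.dvd.mul_left h2 _
  · intro hij hdvd
    subst hij
    have hq : qq p i i = p + 1 := by unfold qq; rw [if_pos rfl]
    rw [hq, Finset.sum_range_succ, Nat.div_self (Nat.factorial_pos p)] at hdvd
    have h1 : (l : ℤ) ∣ ∑ s ∈ range p, zz s * (k : ℤ) ^ s *
        ((p.factorial / s.factorial : ℕ) : ℤ) := by
      apply Finset.dvd_sum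
      intro s hs
      rw [mem_range] at hs
      have h1 := dvd_fact_div p s hs
      have h2 : (l : ℤ) ∣ ((p.factorial / s.factorial : ℕ) : ℤ) := by
        exact_mod_cast hlp.trans h1
      exact Dvd.dvd.mul_left h2 _
    have h2 : (l : ℤ) ∣ zz p * (k : ℤ) ^ p := by
      have := (dvd_add_right h1).1 hdvd
      simpa using this
    have hlZ : Prime (l : ℤ) := Nat.prime_iff_prime_int.1 hl
    rcases hlZ.dvd_or_dvd h2 with h3 | h3
    · -- zz p times the product of differences is a power of Δ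
      have h4 := hzz p (by rw [hq]; omega)
      have h5 : cc h (qq p i) i p = ∏ l ∈ univ.erase i, (((h i : ℚ) - h l)⁻¹) ^ p := by
        have h6 := cc_top (h := h) (q := qq p i) (i := i)
        rw [hq, Nat.add_sub_cancel] at h6
        rw [h6]
        apply Finset.prod_congr rfl
        intro x hx
        have : qq p i x = p := by unfold qq; rw [if_neg (Finset.ne_of_mem_erase hx)]
        rw [this]
      have h7 : zz p * ∏ x ∈ univ.erase i, (h i - h x) ^ p = Δ ^ T := by
        have : ((zz p : ℤ) : ℚ) * ∏ x ∈ univ.erase i, ((h i : ℚ) - h x) ^ p = (Δ : ℚ) ^ T := by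
          rw [← h4, h5, mul_assoc, ← Finset.prod_mul_distrib]
          rw [Finset.prod_eq_one, mul_one]
          intro x hx
          rw [← mul_pow]
          have h8 : ((h i : ℚ) - h x) ≠ 0 := by
            have := (hΔ i x (Finset.ne_of_mem_erase hx)).2
            exact_mod_cast this
          rw [inv_mul_cancel₀ h8, one_pow]
        exact_mod_cast this
      have h9 : (l : ℤ) ∣ Δ ^ T := by
        rw [← h7]; exact Dvd.dvd.mul_right h3 _
      exact hlΔ (hlZ.dvd_of_dvd_pow h9)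
    · have h4 := hlZ.dvd_of_dvd_pow h3
      exact hlk (by exact_mod_cast h4)

/-- independent small linear forms in exponentials -/
theorem forms {h : ι → ℤ} (hinj : Function.Injective h) {L : ℕ} (hL : 1 ≤ L)
    (hh : ∀ i, |h i| ≤ L) {Δ : ℤ} (hΔ : ∀ i l, l ≠ i → h i - h l ∣ Δ ∧ h i - h l ≠ 0)
    {k p l : ℕ} (hl : l.Prime) (hlp : l ∣ p) (hlk : ¬ l ∣ k) (hlΔ : ¬ (l : ℤ) ∣ Δ) :
    ∃ B : Matrix ι ι ℤ, B.det ≠ 0 ∧
      (∀ j i, |(B j i : ℝ)| ≤ p.factorial * |(Δ : ℝ)| ^ (Fintype.card ι * p + 1) *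
        (2 ^ (Fintype.card ι * p + 1) * Real.exp k)) ∧
      ∀ j, |∑ i, (B j i : ℝ) * Real.exp (h i * k)| ≤
        p.factorial * |(Δ : ℝ)| ^ (Fintype.card ι * p + 1) *
        (((Fintype.card ι * p : ℕ) + 1) * 2 ^ (Fintype.card ι * p + 1) *
          ((2 * L * k) ^ (Fintype.card ι * p) / (Fintype.card ι * p).factorial) *
          Real.exp (2 * L * k)) := by
  choose B hB1 hB2 hB3 using entry hΔ hl hlp hlk hlΔ
  refine ⟨Matrix.of B, ?_, ?_, ?_⟩
  · apply det_ne_zero_of_mod hl
    · intro j i hij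
      exact hB2 j i hij
    · intro j
      exact hB3 j j rfl
  · intro j i
    have h1 := PP_bound (sum_qq p j) hΔ (show (0 : ℝ) ≤ (k : ℝ) by positivity) i
    rw [Matrix.of_apply, hB1, abs_mul, abs_mul, abs_pow, Nat.abs_cast]
    gcongr
  · intro j
    have h1 := RR_small hinj (sum_qq p j) hL hh hΔ (show (0 : ℝ) ≤ (k : ℝ) by positivity)
    have h2 : ∑ i, ((Matrix.of B) j i : ℝ) * Real.exp (h i * k) =
        p.factorial * (Δ : ℝ) ^ (Fintype.card ι * p + 1) * RR h (qq p j) k := by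
      unfold RR
      rw [Finset.mul_sum]
      apply Finset.sum_congr rfl
      intro i _
      rw [Matrix.of_apply, hB1]
      ring
    rw [h2, abs_mul, abs_mul, abs_pow, Nat.abs_cast]
    gcongr

/-- a nonzero integer vector is not killed by all the forms -/
lemma exists_form_ne_zero {B : Matrix ι ι ℤ} (hB : B.det ≠ 0) {A : ι → ℤ} (hA : A ≠ 0) :
    ∃ j, ∑ i, B j i * A i ≠ 0 := by
  by_contra hcon
  push Not at hcon
  apply hA
  apply Matrix.eq_zero_of_mulVec_eq_zero hB
  ext j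
  simpa [Matrix.mulVec, dotProduct] using hcon j

end Pool.Agent.Lib.MP_ccb155_nt
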