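import Pool.Agent.Lib.MP_ccb155_nt.Forms
import Pool.Agent.Lib.MP_ccb155_nt.Asymp

set_option autoImplicit false

open Finset Filter Topology

namespace Pool.Agent.Lib.MP_ccb155_nt

/-- n is exceptional: the distance from e^n to the nearest integer is at most e^(-cn) -/
def Exc (c : ℝ) (n : ℕ) : Prop :=
  |Real.exp n - round (Real.exp n)| ≤ Real.exp (-c * n)

lemma pow_diff {M ε x X : ℝ} (hx : |x| ≤ M) (hX : |X| ≤ M) (hxX : |x - X| ≤ ε) (u : ℕ) :
    M * |x ^ u - X ^ u| ≤ u * M ^ u * ε := by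
  have hM : 0 ≤ M := (abs_nonneg _).trans hx
  have hε : 0 ≤ ε := (abs_nonneg _).trans hxX
  induction u with
  | zero => simp
  | succ u ih =>
    have h1 : x ^ (u + 1) - X ^ (u + 1) = x * (x ^ u - X ^ u) + (x - X) * X ^ u := by ring
    have h2 : |x ^ (u + 1) - X ^ (u + 1)| ≤ M * |x ^ u - X ^ u| + ε * M ^ u := by
      rw [h1]
      refine (abs_add_le _ _).trans ?_
      rw [abs_mul, abs_mul, abs_pow]
      gcongr
    calc M * |x ^ (u + 1) - X ^ (u + 1)| ≤ M * (M * |x ^ u - X ^ u| + ε * M ^ u) := by gcongr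
      _ = M * (M * |x ^ u - X ^ u|) + M ^ (u + 1) * ε := by ring
      _ ≤ M * (u * M ^ u * ε) + M ^ (u + 1) * ε := by gcongr
      _ = ((u + 1 : ℕ) : ℝ) * M ^ (u + 1) * ε := by push_cast; ring

lemma mono_diff {M ε x X y Y : ℝ} (hx : |x| ≤ M) (hX : |X| ≤ M) (hy : |y| ≤ M) (hY : |Y| ≤ M)
    (hxX : |x - X| ≤ ε) (hyY : |y - Y| ≤ ε) (u v : ℕ) :
    M * |x ^ u * y ^ v - X ^ u * Y ^ v| ≤ (u + v : ℕ) * M ^ (u + v) * ε := by
  have hM : 0 ≤ M := (abs_nonneg _).trans hx
  have h1 := pow_diff hx hX hxX u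
  have h2 := pow_diff hy hY hyY v
  have h3 : x ^ u * y ^ v - X ^ u * Y ^ v = (x ^ u - X ^ u) * y ^ v + X ^ u * (y ^ v - Y ^ v) := by
    ring
  rw [h3]
  calc M * |(x ^ u - X ^ u) * y ^ v + X ^ u * (y ^ v - Y ^ v)|
      ≤ M * (|x ^ u - X ^ u| * |y| ^ v + |X| ^ u * |y ^ v - Y ^ v|) := by
        gcongr
        refine (abs_add_le _ _).trans ?_
        rw [abs_mul, abs_mul, abs_pow, abs_pow]
    _ ≤ M * (|x ^ u - X ^ u| * M ^ v + M ^ u * |y ^ v - Y ^ v|) := by gcongr
    _ = (M * |x ^ u - X ^ u|) * M ^ v + M ^ u * (M * |y ^ v - Y ^ v|) := by ring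
    _ ≤ (u * M ^ u * ε) * M ^ v + M ^ u * (v * M ^ v * ε) := by gcongr
    _ = (u + v : ℕ) * M ^ (u + v) * ε := by push_cast; ring

/-- the multiplier: a multiple p of a suitable prime, close to x -/
lemma choose_p (k b : ℕ) (hkb : 1 ≤ k + b) (x : ℝ) (hx : 0 ≤ x) :
    ∃ p l : ℕ, l.Prime ∧ l ∣ p ∧ k + b < l ∧ x - 2 * (k + b) ≤ p ∧ (p : ℝ) ≤ x := by
  obtain ⟨l, hl, h1, h2⟩ := Nat.exists_prime_lt_and_le_two_mul (k + b) (by omega)
  have hl0 : (0 : ℝ) < l := by exact_mod_cast hl.pos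
  refine ⟨l * ⌊x / l⌋₊, l, hl, Dvd.intro _ rfl, h1, ?_, ?_⟩
  · have h3 := Nat.lt_floor_add_one (x / l)
    rw [div_lt_iff₀ hl0] at h3
    have h4 : (l : ℝ) ≤ 2 * (k + b) := by exact_mod_cast h2
    push_cast
    nlinarith
  · have h3 := Nat.floor_le (show 0 ≤ x / l by positivity)
    rw [le_div_iff₀ hl0] at h3
    push_cast
    linarith

lemma ev_exp_small (C η : ℝ) (hη : 0 < η) :
    ∀ᶠ n : ℕ in atTop, C * Real.exp (-η * n) < 1 / 2 := by
  have h1 : Tendsto (fun n : ℕ => C * Real.exp (-η * n)) atTop (𝓝 (C * 0)) := by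
    apply Tendsto.const_mul
    have h2 : Tendsto (fun n : ℕ => -η * (n : ℝ)) atTop atBot := by
      have := (tendsto_natCast_atTop_atTop (R := ℝ)).const_mul_atTop hη
      have h3 := tendsto_neg_atTop_atBot.comp this
      refine h3.congr ?_
      intro n; simp
    exact Real.tendsto_exp_atBot.comp h2
  rw [mul_zero] at h1
  exact h1.eventually (gt_mem_nhds (by norm_num))

theorem gap (r : ℕ) (hr : 1 ≤ r) (c θ : ℝ) (hc : (r : ℝ) < c)
    (hθ : (c + 1) / ((c + 1 - r) * (r + 1)) < θ) :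
    ∃ n₀ : ℕ, ∀ n n' : ℕ, n₀ ≤ n → n < n' → Exc c n → Exc c n' →
      (n : ℝ) ^ (1 - θ) ≤ (n' : ℝ) - n := by
  have hr' : (1 : ℝ) ≤ r := by exact_mod_cast hr
  by_cases hθ1 : 1 ≤ θ
  · refine ⟨1, fun n n' hn hnn' _ _ => ?_⟩
    have h1 : (n : ℝ) ^ (1 - θ) ≤ 1 := by
      apply Real.rpow_le_one_of_one_le_of_nonpos
      · exact_mod_cast hn
      · linarith
    have h2 : (n : ℝ) + 1 ≤ n' := by exact_mod_cast hnn'
    linarith
  push Not at hθ1
  -- parameters
  obtain ⟨τ, hτ⟩ : ∃ τ : ℝ, τ = 1 - θ := ⟨_, rfl⟩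
  have hcr : 0 < c + 1 - r := by linarith
  have hτ1 : τ < 1 := by
    have : 0 < (c + 1) / ((c + 1 - r) * (r + 1)) := by
      apply div_pos (by linarith); positivity
    linarith
  have hτ0 : 0 < τ := by linarith
  have hkey : (r + 1) * τ * (c + 1 - r) < r * (c - r) := by
    rw [div_lt_iff₀ (by positivity)] at hθ
    rw [hτ]
    nlinarith
  have hden : 0 < r - (r + 1) * τ := by
    have h1 : (r + 1) * τ * (c + 1 - r) < r * (c + 1 - r) := by nlinarith
    have h2 := lt_of_mul_lt_mul_right h1 hcr.le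
    linarith
  obtain ⟨y, hy1, hy2⟩ : ∃ y : ℝ, r / (r - (r + 1) * τ) < y ∧ y < c + 1 - r := by
    apply _root_.exists_between
    rw [div_lt_iff₀ hden]
    nlinarith
  have hy0 : 0 < y := lt_trans (by positivity) hy1
  rw [div_lt_iff₀ hden] at hy1
  obtain ⟨η, hη, hη1, hη2⟩ : ∃ η : ℝ, 0 < η ∧ 2 * η < y * (r - (r + 1) * τ) - r ∧
      (3 + r) * η < c + 1 - r - y := by
    refine ⟨min ((y * (r - (r + 1) * τ) - r) / 3) ((c + 1 - r - y) / (2 * (3 + r))), ?_, ?_, ?_⟩
    · apply lt_min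
      · linarith
      · apply div_pos <;> linarith
    · have := min_le_left ((y * (r - (r + 1) * τ) - r) / 3) ((c + 1 - r - y) / (2 * (3 + r)))
      linarith
    · have h1 := min_le_right ((y * (r - (r + 1) * τ) - r) / 3) ((c + 1 - r - y) / (2 * (3 + r)))
      have h2 : (3 + (r : ℝ)) * ((c + 1 - r - y) / (2 * (3 + r))) = (c + 1 - r - y) / 2 := by
        field_simp
      have h3 : (3 + (r : ℝ)) * min ((y * (r - (r + 1) * τ) - r) / 3)
          ((c + 1 - r - y) / (2 * (3 + r))) ≤ (3 + r) * ((c + 1 - r - y) / (2 * (3 + r))) := by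
        gcongr
      linarith
  set C0 : ℝ := max (r.factorial : ℝ) (2 * r) with hC0
  have hC01 : 1 ≤ C0 := by
    refine le_trans ?_ (le_max_left _ _)
    exact_mod_cast Nat.factorial_pos r
  obtain ⟨ε1, hε1, hε11, hcore⟩ := core (r + 1) (by omega) y 0 τ C0 hy0 le_rfl hτ0.le hτ1 hC01 η hη
  -- eventual facts
  have G1 := ev_pow_log y ((1 - τ) / 2) hy0 (by linarith)
  have G2 : ∀ᶠ n : ℕ in atTop, 2 * ((n : ℝ) ^ τ + r) ≤ ε1 * (n : ℝ) ^ (1 - (1 - τ) / 2) := by
    have h1 : Tendsto (fun x : ℝ => x ^ (-((1 - τ) / 2))) atTop (𝓝 0) :=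
      tendsto_rpow_neg_atTop (by linarith)
    have h2 := (h1.comp tendsto_natCast_atTop_atTop).eventually
      (gt_mem_nhds (show (0 : ℝ) < ε1 / 4 by positivity))
    have h3 : Tendsto (fun x : ℝ => x ^ (1 - (1 - τ) / 2)) atTop atTop :=
      tendsto_rpow_atTop (by linarith)
    have h4 := (h3.comp tendsto_natCast_atTop_atTop).eventually_ge_atTop (4 * r / ε1)
    filter_upwards [h2, h4, eventually_gt_atTop 0] with n hn hn4 hn0
    have hn' : (0 : ℝ) < n := by exact_mod_cast hn0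
    simp only [Function.comp_apply] at hn hn4
    rw [div_le_iff₀ hε1] at hn4
    have h5 : (n : ℝ) ^ τ = (n : ℝ) ^ (-((1 - τ) / 2)) * (n : ℝ) ^ (1 - (1 - τ) / 2) := by
      rw [← Real.rpow_add hn']; congr 1; ring
    have h6 : (n : ℝ) ^ τ ≤ ε1 / 4 * (n : ℝ) ^ (1 - (1 - τ) / 2) := by
      rw [h5]; gcongr
    linarith
  have G3 := ev_rpow_le 1 τ η one_pos hτ1 hη
  have G4 := ev_exp_small 1 η hη
  have G5 := ev_exp_small ((r + 1) * r * 2 ^ (r - 1)) η hη
  obtain ⟨n₀, hn₀⟩ := eventually_atTop.1 (hcore.and (G1.and (G2.and (G3.and (G4.and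
    (G5.and (eventually_gt_atTop 1)))))))
  refine ⟨n₀, fun n n' hn hnn' hE hE' => ?_⟩
  obtain ⟨H, g1, g2, g3, g4, g5, hn1⟩ := hn₀ n hn
  by_contra hcon
  push Not at hcon
  rw [← hτ] at hcon
  obtain ⟨k, rfl⟩ : ∃ k, n' = n + k := ⟨n' - n, by omega⟩
  have hk1 : 1 ≤ k := by omega
  have hkτ : (k : ℝ) < (n : ℝ) ^ τ := by push_cast at hcon; linarith
  have hn0 : (0 : ℝ) < n := by
    have : 0 < n := by omega
    exact_mod_cast this
  have hx0 : 0 ≤ y * n / Real.log n := by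
    apply div_nonneg (by positivity)
    exact Real.log_nonneg (by exact_mod_cast hn1.le)
  obtain ⟨p, l, hl, hlp, hkl, hp1, hp2⟩ := choose_p k r (by omega) _ hx0
  have hpx : (1 - ε1) * (y * n / Real.log n) ≤ p := by
    have h1 : 2 * ((k : ℝ) + r) ≤ ε1 * (y * n / Real.log n) := by
      calc 2 * ((k : ℝ) + r) ≤ 2 * ((n : ℝ) ^ τ + r) := by linarith
        _ ≤ ε1 * (n : ℝ) ^ (1 - (1 - τ) / 2) := g2
        _ ≤ ε1 * (y * n / Real.log n) := by gcongr
    linarith
  -- the forms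
  have hΔ : ∀ i j : Fin (r + 1), j ≠ i → ((i : ℕ) : ℤ) - ((j : ℕ) : ℤ) ∣ ((r.factorial : ℕ) : ℤ) ∧
      ((i : ℕ) : ℤ) - ((j : ℕ) : ℤ) ≠ 0 := by
    intro i j hij
    have hne : (i : ℕ) ≠ (j : ℕ) := fun e => hij (Fin.ext e.symm)
    have hi := i.2
    have hj := j.2
    refine ⟨?_, by omega⟩
    rw [← Int.natAbs_dvd, Int.natCast_dvd_natCast]
    apply Nat.dvd_factorial <;> omega
  obtain ⟨B, hB, hB1, hB2⟩ := forms (ι := Fin (r + 1)) (h := fun i => ((i : ℕ) : ℤ))
    (fun a b e => Fin.ext (by simpa using e)) (L := r) hr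
    (fun i => by
      have := i.2
      rw [abs_of_nonneg (by positivity)]
      exact_mod_cast Nat.lt_succ_iff.1 this)
    (Δ := ((r.factorial : ℕ) : ℤ)) hΔ (k := k) (p := p) hl hlp
    (fun hd => by have := Nat.le_of_dvd (by omega) hd; omega)
    (fun hd => by
      rw [Int.natCast_dvd_natCast] at hd
      have := (Nat.Prime.dvd_factorial hl).1 hd
      omega)
  rw [Fintype.card_fin] at hB1 hB2
  -- the integers
  set a : ℤ := round (Real.exp n) with ha
  set a' : ℤ := round (Real.exp (n + k : ℕ)) with ha'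
  have hEa : |(a : ℝ) - Real.exp n| ≤ Real.exp (-c * n) := by rw [abs_sub_comm]; exact hE
  have hc0 : 0 < c := by linarith
  have hEa' : |(a' : ℝ) - Real.exp (n + k : ℕ)| ≤ Real.exp (-c * n) := by
    rw [abs_sub_comm]
    refine hE'.trans (Real.exp_le_exp.2 ?_)
    push_cast
    have : 0 ≤ (k : ℝ) := by positivity
    nlinarith
  have hsmall : Real.exp (-c * n) ≤ 1 := by
    apply Real.exp_le_one_iff.2
    nlinarith
  set M : ℝ := 2 * Real.exp (n + k : ℕ) with hM
  have he1 : 1 ≤ Real.exp n := Real.one_le_exp hn0.le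
  have hee : Real.exp n ≤ Real.exp (n + k : ℕ) := by
    apply Real.exp_le_exp.2; push_cast; have : 0 ≤ (k : ℝ) := by positivity
    linarith
  have hMpos : 0 < M := by rw [hM]; positivity
  have haM : |(a : ℝ)| ≤ M := by
    have h1 := abs_le.1 hEa
    rw [abs_le]; constructor <;> rw [hM] <;> linarith
  have haM' : |(a' : ℝ)| ≤ M := by
    have h1 := abs_le.1 hEa'
    rw [abs_le]; constructor <;> rw [hM] <;> linarith
  have heM : |Real.exp n| ≤ M := by
    rw [abs_of_pos (Real.exp_pos _), hM]; linarith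
  have heM' : |Real.exp (n + k : ℕ)| ≤ M := by
    rw [abs_of_pos (Real.exp_pos _), hM]
    have := Real.exp_pos ((n + k : ℕ) : ℝ)
    linarith
  have ha0 : a ≠ 0 := by
    intro h0
    rw [h0] at hEa
    have h1 := abs_le.1 hEa
    have h2 : (2 : ℝ) ≤ Real.exp n := by
      have h3 := Real.add_one_le_exp (n : ℝ)
      have h4 : (1 : ℝ) ≤ n := by exact_mod_cast hn1.le
      linarith
    push_cast at h1
    linarith
  -- a nonvanishing form
  set A : Fin (r + 1) → ℤ := fun i => a ^ (r - i) * a' ^ (i : ℕ) with hA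
  have hAne : A ≠ 0 := by
    intro h0
    have h1 := congrFun h0 0
    simp only [hA, Fin.val_zero, Nat.sub_zero, pow_zero, mul_one, Pi.zero_apply] at h1
    exact ha0 (pow_eq_zero_iff (by omega) |>.1 h1)
  obtain ⟨j, hj⟩ := exists_form_ne_zero hB hAne
  have hone : (1 : ℝ) ≤ |∑ i, (B j i : ℝ) * (A i : ℝ)| := by
    have h1 : (1 : ℤ) ≤ |∑ i, B j i * A i| := Int.one_le_abs hj
    exact_mod_cast h1
  -- approximations
  have hAdiff : ∀ i : Fin (r + 1), |(A i : ℝ) - Real.exp (r * n) * Real.exp (((i : ℕ) : ℤ) * k)| ≤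
      r * M ^ (r - 1) * Real.exp (-c * n) := by
    intro i
    have hi : (i : ℕ) ≤ r := Nat.lt_succ_iff.1 i.2
    have h1 := mono_diff haM heM haM' heM' hEa hEa' (r - i) i
    have h2 : Real.exp (r * n) * Real.exp (((i : ℕ) : ℤ) * k) =
        Real.exp n ^ (r - i) * Real.exp (n + k : ℕ) ^ (i : ℕ) := by
      rw [← Real.exp_nat_mul, ← Real.exp_nat_mul, ← Real.exp_add, ← Real.exp_add]
      congr 1
      push_cast [Nat.cast_sub hi]
      ring
    rw [h2]
    have h3 : r - (i : ℕ) + i = r := by omega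
    rw [h3] at h1
    have h4 : (A i : ℝ) = (a : ℝ) ^ (r - (i : ℕ)) * (a' : ℝ) ^ (i : ℕ) := by
      simp [hA]
    rw [h4]
    have h5 : (r : ℝ) * M ^ r * Real.exp (-c * n) = M * (r * M ^ (r - 1) * Real.exp (-c * n)) := by
      obtain ⟨r', rfl⟩ : ∃ r', r = r' + 1 := ⟨r - 1, by omega⟩
      rw [Nat.add_sub_cancel, pow_succ]; ring
    rw [h5] at h1
    exact le_of_mul_le_mul_left h1 hMpos
  -- the two bounds
  obtain ⟨c1, c2⟩ := H p hpx hp2 (|((((r.factorial : ℕ) : ℤ) : ℝ))|) (2 * r * k) (abs_nonneg _)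
    (by
      rw [Real.rpow_zero, mul_one, hC0]
      rw [abs_of_nonneg (by positivity)]
      push_cast
      exact le_max_left _ _)
    (by positivity)
    (by
      calc (2 : ℝ) * r * k ≤ C0 * k := by
            gcongr
            exact le_max_right _ _
        _ ≤ C0 * (n : ℝ) ^ τ := by gcongr)
  have hfirst : |∑ i, (B j i : ℝ) * (Real.exp (r * n) * Real.exp (((i : ℕ) : ℤ) * k))| < 1 / 2 := by
    have h1 : ∑ i, (B j i : ℝ) * (Real.exp (r * n) * Real.exp (((i : ℕ) : ℤ) * k)) =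
        Real.exp (r * n) * ∑ i, (B j i : ℝ) * Real.exp (((i : ℕ) : ℤ) * k) := by
      rw [Finset.mul_sum]
      apply Finset.sum_congr rfl
      intro i _
      ring
    rw [h1, abs_mul, abs_of_pos (Real.exp_pos _)]
    calc Real.exp (r * n) * |∑ i, (B j i : ℝ) * Real.exp (((i : ℕ) : ℤ) * k)|
        ≤ Real.exp (r * n) * Real.exp ((-((r + 1 : ℕ) - 1) * y + (r + 1 : ℕ) * y * (τ + 0) + η) * n) := by
          gcongr
          exact (hB2 j).trans c2
      _ = Real.exp ((r - (r * y - (r + 1) * y * τ) + η) * n) := by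
          rw [← Real.exp_add]; congr 1; push_cast; ring
      _ ≤ 1 * Real.exp (-η * n) := by
          rw [one_mul]
          apply Real.exp_le_exp.2
          apply mul_le_mul_of_nonneg_right _ hn0.le
          nlinarith
      _ < 1 / 2 := g4
  have hsecond : ∑ i, |(B j i : ℝ)| *
      |(A i : ℝ) - Real.exp (r * n) * Real.exp (((i : ℕ) : ℤ) * k)| < 1 / 2 := by
    have hBb : ∀ i, |(B j i : ℝ)| ≤ Real.exp ((y + η) * n) * Real.exp k := by
      intro i
      refine (hB1 j i).trans ?_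
      rw [← mul_assoc]
      apply mul_le_mul_of_nonneg_right _ (Real.exp_pos _).le
      refine c1.trans (le_of_eq ?_)
      congr 1; ring
    have hMr : M ^ (r - 1) = 2 ^ (r - 1) * Real.exp ((r - 1) * (n + k)) := by
      rw [hM, mul_pow, ← Real.exp_nat_mul]
      congr 2
      push_cast [Nat.cast_sub hr]
      ring
    calc ∑ i, |(B j i : ℝ)| * |(A i : ℝ) - Real.exp (r * n) * Real.exp (((i : ℕ) : ℤ) * k)|
        ≤ ∑ i : Fin (r + 1), (Real.exp ((y + η) * n) * Real.exp k) *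
          (r * M ^ (r - 1) * Real.exp (-c * n)) := by
          apply Finset.sum_le_sum
          intro i _
          exact mul_le_mul (hBb i) (hAdiff i) (abs_nonneg _) (by positivity)
      _ = ((r + 1) * r * 2 ^ (r - 1)) * Real.exp ((y + η + (r - 1) - c) * n + r * k) := by
          rw [Finset.sum_const, card_univ, Fintype.card_fin, nsmul_eq_mul, hMr]
          have : Real.exp ((y + η + (r - 1) - c) * n + r * k) = Real.exp ((y + η) * n) *
              Real.exp k * Real.exp ((r - 1) * (n + k)) * Real.exp (-c * n) := by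
            rw [← Real.exp_add, ← Real.exp_add, ← Real.exp_add]; congr 1; ring
          rw [this]
          push_cast
          ring
      _ ≤ ((r + 1) * r * 2 ^ (r - 1)) * Real.exp (-η * n) := by
          gcongr
          have h1 : (k : ℝ) ≤ η * n := by linarith
          have h2 : (r : ℝ) * k ≤ r * (η * n) := by gcongr
          have h3 : (y + η + (r - 1) - c + r * η) * n ≤ (-η) * n := by
            apply mul_le_mul_of_nonneg_right _ hn0.le
            linarith
          linarith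
      _ < 1 / 2 := g5
  have htot : |∑ i, (B j i : ℝ) * (A i : ℝ)| ≤
      |∑ i, (B j i : ℝ) * (Real.exp (r * n) * Real.exp (((i : ℕ) : ℤ) * k))| +
      ∑ i, |(B j i : ℝ)| * |(A i : ℝ) - Real.exp (r * n) * Real.exp (((i : ℕ) : ℤ) * k)| := by
    have h1 : ∑ i, (B j i : ℝ) * (A i : ℝ) =
        ∑ i, (B j i : ℝ) * (Real.exp (r * n) * Real.exp (((i : ℕ) : ℤ) * k)) +
        ∑ i, (B j i : ℝ) * ((A i : ℝ) - Real.exp (r * n) * Real.exp (((i : ℕ) : ℤ) * k)) := by
      rw [← Finset.sum_add_distrib]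
      apply Finset.sum_congr rfl
      intro i _
      ring
    rw [h1]
    refine (abs_add_le _ _).trans ?_
    gcongr
    refine (Finset.abs_sum_le_sum_abs _ _).trans (le_of_eq ?_)
    apply Finset.sum_congr rfl
    intro i _
    rw [abs_mul]
  have hfin := hone.trans htot
  exact absurd (lt_of_le_of_lt hfin (add_lt_add hfirst hsecond)) (by norm_num)

end Pool.Agent.Lib.MP_ccb155_nt
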