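import Pool.Agent.Lib.MP_ccb155_nt.PF

set_option autoImplicit false

open Finset PowerSeries

namespace Pool.Agent.Lib.MP_ccb155_nt

/-- integrality and size control of a power series -/
def Good (Δ : ℤ) (N : ℕ) (f : ℚ⟦X⟧) : Prop :=
  (∀ e, ∃ z : ℤ, (Δ : ℚ) ^ (N + e) * coeff e f = z) ∧
    ∀ e, |coeff e f| ≤ coeff e ((mk 1 : ℚ⟦X⟧) ^ N)

lemma good_one (Δ : ℤ) : Good Δ 0 (1 : ℚ⟦X⟧) := by
  constructor
  · intro e
    rcases e with _ | e
    · exact ⟨1, by simp⟩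
    · exact ⟨0, by simp [coeff_one]⟩
  · intro e
    rw [pow_zero, coeff_one]
    split_ifs <;> simp

lemma good_mul {Δ : ℤ} {N M : ℕ} {f g : ℚ⟦X⟧} (hf : Good Δ N f) (hg : Good Δ M g) :
    Good Δ (N + M) (f * g) := by
  constructor
  · intro e
    choose zf hzf using hf.1
    choose zg hzg using hg.1
    refine ⟨∑ x ∈ antidiagonal e, zf x.1 * zg x.2, ?_⟩
    rw [coeff_mul, Finset.mul_sum]
    push_cast
    apply Finset.sum_congr rfl
    intro x hx
    rw [Finset.HasAntidiagonal.mem_antidiagonal] at hx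
    rw [← hzf, ← hzg, ← hx]
    ring
  · intro e
    rw [pow_add, coeff_mul, coeff_mul]
    refine (Finset.abs_sum_le_sum_abs _ _).trans (Finset.sum_le_sum ?_)
    intro x _
    rw [abs_mul]
    exact mul_le_mul (hf.2 _) (hg.2 _) (abs_nonneg _) ((abs_nonneg _).trans (hf.2 _))

lemma good_inv {Δ d : ℤ} (hd : d ∣ Δ) (hd0 : d ≠ 0) : Good Δ 1 (inv (d : ℚ)) := by
  obtain ⟨c, rfl⟩ := hd
  have hdq : (d : ℚ) ≠ 0 := by exact_mod_cast hd0
  constructor
  · intro e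
    refine ⟨(-1) ^ e * c ^ (e + 1), ?_⟩
    simp only [inv, coeff_mk]
    push_cast
    rw [add_comm 1 e, mul_pow]
    have h1 : (d : ℚ) ^ (e + 1) * ((d : ℚ)⁻¹) ^ (e + 1) = 1 := by
      rw [← mul_pow, mul_inv_cancel₀ hdq, one_pow]
    linear_combination ((c : ℚ) ^ (e + 1) * (-1) ^ e) * h1
  · intro e
    simp only [inv, coeff_mk, pow_one, Pi.one_apply]
    rw [abs_mul, abs_pow, abs_neg, abs_one, one_pow, one_mul, abs_pow, abs_inv]
    apply pow_le_one₀ (by positivity)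
    apply inv_le_one_of_one_le₀
    have : (1 : ℤ) ≤ |d| := Int.one_le_abs hd0
    exact_mod_cast this

lemma good_pow {Δ : ℤ} {f : ℚ⟦X⟧} (hf : Good Δ 1 f) (n : ℕ) : Good Δ n (f ^ n) := by
  induction n with
  | zero => rw [pow_zero]; exact good_one Δ
  | succ n ih => rw [pow_succ]; exact good_mul ih hf

lemma good_prod {α : Type*} [DecidableEq α] {Δ : ℤ} (s : Finset α) (f : α → ℚ⟦X⟧) (n : α → ℕ)
    (hf : ∀ a ∈ s, Good Δ (n a) (f a)) : Good Δ (∑ a ∈ s, n a) (∏ a ∈ s, f a) := by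
  induction s using Finset.induction_on with
  | empty => simpa using good_one Δ
  | insert a s ha ih =>
    rw [Finset.sum_insert ha, Finset.prod_insert ha]
    exact good_mul (hf a (mem_insert_self a s)) (ih fun b hb => hf b (mem_insert_of_mem hb))

variable {ι : Type*} [Fintype ι] [DecidableEq ι]

lemma good_G {Δ : ℤ} {h : ι → ℤ} (q : ι → ℕ) (i : ι)
    (hΔ : ∀ l, l ≠ i → h i - h l ∣ Δ ∧ h i - h l ≠ 0) :
    Good Δ (∑ l ∈ univ.erase i, q l) (G (fun l => (h l : ℚ)) q i) := by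
  unfold G
  apply good_prod
  intro l hl
  have hl' := Finset.ne_of_mem_erase hl
  have h1 := good_inv (hΔ l hl').1 (hΔ l hl').2
  push_cast at h1
  exact good_pow h1 (q l)

/-- size of the coefficients -/
lemma coeff_mk_one_pow_le (N e : ℕ) : coeff e ((mk 1 : ℚ⟦X⟧) ^ N) ≤ 2 ^ (N + e) := by
  rcases N with _ | N
  · rw [pow_zero, coeff_one]
    split_ifs
    · have : (1 : ℚ) ≤ 2 ^ (0 + e) := one_le_pow₀ (by norm_num)
      simpa using this
    · positivity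
  · rw [mk_one_pow_eq_mk_choose_add, coeff_mk]
    have h1 : (N + e).choose N ≤ 2 ^ (N + e) := Nat.choose_le_two_pow _ _
    have h2 : (((N + e).choose N : ℕ) : ℚ) ≤ 2 ^ (N + e) := by exact_mod_cast h1
    refine h2.trans ?_
    apply pow_le_pow_right₀ (by norm_num)
    omega

/-- the coefficients of the forms -/
noncomputable def cc (h : ι → ℤ) (q : ι → ℕ) (i : ι) (s : ℕ) : ℚ :=
  coeff (q i - 1 - s) (G (fun l => (h l : ℚ)) q i)

lemma cc_abs {Δ : ℤ} {h : ι → ℤ} {q : ι → ℕ} {T : ℕ} (hT : ∑ i, q i = T) {i : ι} {s : ℕ}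
    (hs : s < q i) (hΔ : ∀ l, l ≠ i → h i - h l ∣ Δ ∧ h i - h l ≠ 0) :
    |cc h q i s| ≤ 2 ^ T := by
  have h1 := (good_G (Δ := Δ) q i hΔ).2 (q i - 1 - s)
  refine h1.trans ((coeff_mk_one_pow_le _ _).trans ?_)
  apply pow_le_pow_right₀ (by norm_num)
  rw [← hT, ← Finset.add_sum_erase _ _ (mem_univ i)]
  omega

lemma cc_int {Δ : ℤ} {h : ι → ℤ} {q : ι → ℕ} {T : ℕ} (hT : ∑ i, q i = T) {i : ι} {s : ℕ}
    (hs : s < q i) (hΔ : ∀ l, l ≠ i → h i - h l ∣ Δ ∧ h i - h l ≠ 0) :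
    ∃ z : ℤ, (Δ : ℚ) ^ T * cc h q i s = z := by
  obtain ⟨z, hz⟩ := (good_G (Δ := Δ) q i hΔ).1 (q i - 1 - s)
  refine ⟨Δ ^ (s + 1) * z, ?_⟩
  unfold cc
  push_cast
  rw [← hz]
  have : T = (s + 1) + ((∑ l ∈ univ.erase i, q l) + (q i - 1 - s)) := by
    rw [← hT, ← Finset.add_sum_erase _ _ (mem_univ i)]
    omega
  rw [this, pow_add]
  ring

/-- the top coefficient -/
lemma cc_top {h : ι → ℤ} {q : ι → ℕ} {i : ι} :
    cc h q i (q i - 1) = ∏ l ∈ univ.erase i, (((h i : ℚ) - h l)⁻¹) ^ (q l) := by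
  unfold cc G
  rw [Nat.sub_self, coeff_zero_eq_constantCoeff_apply, map_prod]
  apply Finset.prod_congr rfl
  intro l _
  rw [map_pow, ← coeff_zero_eq_constantCoeff_apply]
  simp [inv]

lemma cc_moments {h : ι → ℤ} (hh : Function.Injective h) {T : ℕ} {q : ι → ℕ}
    (hq : ∑ i, q i = T + 1) {N : ℕ} (hN : N < T) :
    ∑ i, ∑ s ∈ range (q i), cc h q i s * ((N.choose s : ℚ) * (h i : ℚ) ^ (N - s)) = 0 :=
  moments_zero (h := fun l => (h l : ℚ)) (fun a b e => hh (Int.cast_injective e)) hq hN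

end Pool.Agent.Lib.MP_ccb155_nt
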