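import Mathlib

set_option autoImplicit false

open Finset PowerSeries

namespace Pool.Agent.Lib.MP_ccb155_nt

/-- the inverse of a + X -/
noncomputable def inv (a : ℚ) : ℚ⟦X⟧ := PowerSeries.mk (fun e => (-1) ^ e * (a⁻¹) ^ (e + 1))

lemma mul_inv' {a : ℚ} (ha : a ≠ 0) : inv a * (C a + X) = 1 := by
  ext n
  rw [mul_add, map_add, coeff_mul_C]
  rcases n with _ | n
  · simp [inv, ha]
  · rw [coeff_succ_mul_X]
    simp only [inv, coeff_mk, coeff_one, Nat.succ_ne_zero, if_false]
    have h1 : a⁻¹ * a = 1 := inv_mul_cancel₀ ha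
    rw [pow_succ (a⁻¹) (n + 1), pow_succ (-1 : ℚ) n]
    linear_combination (-((-1) ^ n * a⁻¹ ^ (n + 1))) * h1

/-- geometric series -/
noncomputable def V (a : ℚ) : ℚ⟦X⟧ := PowerSeries.mk (fun n => a ^ n)

lemma V_mul (a : ℚ) : V a * (1 - C a * X) = 1 := by
  ext n
  rw [mul_sub, map_sub, mul_one, ← mul_assoc]
  rcases n with _ | n
  · simp [V]
  · rw [coeff_succ_mul_X, coeff_mul_C]
    simp only [V, coeff_mk, coeff_one, Nat.succ_ne_zero, if_false]
    ring

lemma V_sub (a b : ℚ) : C (a - b) * X * (V a * V b) = V a - V b := by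
  have h1 := V_mul a
  have h2 := V_mul b
  have h3 : C (a - b) * X = (1 - C b * X) - (1 - C a * X : ℚ⟦X⟧) := by
    rw [map_sub]; ring
  rw [h3]
  linear_combination (V a) * h2 - (V b) * h1

lemma coeff_term (a : ℚ) (s N : ℕ) :
    coeff N (X ^ s * V a ^ (s + 1)) = (N.choose s : ℚ) * a ^ (N - s) := by
  have hV : V a = rescale a (mk 1) := by
    ext n
    simp [V, coeff_rescale]
  rw [hV, ← map_pow, mk_one_pow_eq_mk_choose_add, coeff_X_pow_mul']
  split_ifs with h
  · rw [coeff_rescale, coeff_mk]
    rw [show s + (N - s) = N by omega]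
    ring
  · rw [Nat.choose_eq_zero_of_lt (by omega)]
    simp

variable {ι : Type*} [Fintype ι] [DecidableEq ι]

/-- the local factor at the node i -/
noncomputable def G (h : ι → ℚ) (q : ι → ℕ) (i : ι) : ℚ⟦X⟧ :=
  ∏ l ∈ univ.erase i, inv (h i - h l) ^ (q l)

lemma G_update_self (h : ι → ℚ) (q : ι → ℕ) (i : ι) (x : ℕ) :
    G h (Function.update q i x) i = G h q i := by
  unfold G
  apply Finset.prod_congr rfl
  intro l hl
  rw [Function.update_of_ne (Finset.ne_of_mem_erase hl)]

lemma G_update {h : ι → ℚ} (hh : Function.Injective h) {q : ι → ℕ} {i l : ι} (hl : l ≠ i)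
    (hq : 1 ≤ q l) :
    G h (Function.update q l (q l - 1)) i = G h q i * (C (h i - h l) + X) := by
  unfold G
  have hmem : l ∈ univ.erase i := Finset.mem_erase.2 ⟨hl, mem_univ l⟩
  rw [← Finset.mul_prod_erase _ _ hmem, ← Finset.mul_prod_erase (univ.erase i) _ hmem]
  have h1 : ∏ x ∈ (univ.erase i).erase l, inv (h i - h x) ^ (Function.update q l (q l - 1) x) =
      ∏ x ∈ (univ.erase i).erase l, inv (h i - h x) ^ (q x) := by
    apply Finset.prod_congr rfl
    intro x hx
    rw [Function.update_of_ne (Finset.ne_of_mem_erase hx)]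
  rw [h1, Function.update_self]
  have hne : h i - h l ≠ 0 := sub_ne_zero.2 (fun e => hl (hh e).symm)
  have h2 : inv (h i - h l) ^ (q l) = inv (h i - h l) ^ (q l - 1) * inv (h i - h l) := by
    rw [← pow_succ, Nat.sub_add_cancel hq]
  rw [h2]
  have h3 := mul_inv' hne
  linear_combination (-(inv (h i - h l) ^ (q l - 1)) *
    ∏ x ∈ (univ.erase i).erase l, inv (h i - h x) ^ (q x)) * h3

/-- local sum -/
noncomputable def Si (h : ι → ℚ) (q : ι → ℕ) (i : ι) : ℚ⟦X⟧ :=
  ∑ s ∈ range (q i), C (coeff (q i - 1 - s) (G h q i)) * (X ^ s * V (h i) ^ (s + 1))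

noncomputable def U (h : ι → ℚ) (q : ι → ℕ) (i : ι) : ℚ⟦X⟧ :=
  ∑ s ∈ range (q i), C (coeff (q i - 1 - s) (G h q i * X)) * (X ^ s * V (h i) ^ (s + 1))

noncomputable def SS (h : ι → ℚ) (q : ι → ℕ) : ℚ⟦X⟧ := ∑ i, Si h q i

lemma L1 {h : ι → ℚ} (hh : Function.Injective h) {q : ι → ℕ} {i l : ι} (hl : l ≠ i)
    (hq : 1 ≤ q l) :
    Si h (Function.update q l (q l - 1)) i = C (h i - h l) * Si h q i + U h q i := by
  unfold Si U
  rw [Function.update_of_ne hl.symm, G_update hh hl hq, Finset.mul_sum, ← Finset.sum_add_distrib]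
  apply Finset.sum_congr rfl
  intro s _
  rw [mul_add (G h q i), map_add, coeff_mul_C, map_add, map_mul]
  ring

lemma L2 {h : ι → ℚ} {q : ι → ℕ} {i : ι} (hq : 1 ≤ q i) :
    Si h (Function.update q i (q i - 1)) i = U h q i := by
  unfold Si U
  rw [Function.update_self, G_update_self]
  obtain ⟨n, hn⟩ : ∃ n, q i = n + 1 := ⟨q i - 1, by omega⟩
  rw [hn, Nat.add_sub_cancel, Finset.sum_range_succ]
  have hlast : coeff (n - n) (G h q i * X) = 0 := by simp
  rw [hlast, map_zero, zero_mul, add_zero]
  apply Finset.sum_congr rfl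
  intro s hs
  rw [mem_range] at hs
  have : n - s = (n - 1 - s) + 1 := by omega
  rw [this, coeff_succ_mul_X]

lemma S_rec {h : ι → ℚ} (hh : Function.Injective h) {q : ι → ℕ} {a b : ι} (hab : a ≠ b)
    (ha : 1 ≤ q a) (hb : 1 ≤ q b) :
    C (h a - h b) * SS h q =
      SS h (Function.update q b (q b - 1)) - SS h (Function.update q a (q a - 1)) := by
  unfold SS
  rw [Finset.mul_sum, ← Finset.sum_sub_distrib]
  apply Finset.sum_congr rfl
  intro i _
  by_cases hia : i = a
  · subst hia
    rw [L1 hh hab.symm hb, L2 ha]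
    ring
  · by_cases hib : i = b
    · subst hib
      rw [L1 hh hab ha, L2 hb, map_sub, map_sub]
      ring
    · rw [L1 hh (Ne.symm hib) hb, L1 hh (Ne.symm hia) ha, map_sub, map_sub, map_sub]
      ring

lemma sum_update {q : ι → ℕ} {b : ι} (hb : 1 ≤ q b) :
    ∑ i, Function.update q b (q b - 1) i + 1 = ∑ i, q i := by
  rw [Finset.sum_update_of_mem (mem_univ b)]
  have h1 : ∑ i, q i = q b + ∑ i ∈ univ \ {b}, q i := by
    rw [Finset.sdiff_singleton_eq_erase, Finset.add_sum_erase _ _ (mem_univ b)]
  rw [h1]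
  omega

lemma prod_update (h : ι → ℚ) {q : ι → ℕ} {b : ι} (hb : 1 ≤ q b) :
    (∏ i, V (h i) ^ (Function.update q b (q b - 1) i)) * V (h b) = ∏ i, V (h i) ^ (q i) := by
  rw [← Finset.mul_prod_erase _ _ (mem_univ b),
    ← Finset.mul_prod_erase (univ) (fun i => V (h i) ^ (q i)) (mem_univ b)]
  rw [Function.update_self]
  have h1 : ∏ x ∈ univ.erase b, V (h x) ^ (Function.update q b (q b - 1) x) =
      ∏ x ∈ univ.erase b, V (h x) ^ (q x) := by
    apply Finset.prod_congr rfl
    intro x hx
    rw [Function.update_of_ne (Finset.ne_of_mem_erase hx)]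
  rw [h1]
  have h2 : V (h b) ^ (q b) = V (h b) ^ (q b - 1) * V (h b) := by
    rw [← pow_succ, Nat.sub_add_cancel hb]
  simp only [h2]
  ring

/-- partial fractions -/
theorem partial_fractions' {h : ι → ℚ} (hh : Function.Injective h) (T : ℕ) :
    ∀ q : ι → ℕ, ∑ i, q i = T + 1 → SS h q = X ^ T * ∏ i, V (h i) ^ (q i) := by
  induction T using Nat.strong_induction_on with
  | _ T ih =>
    intro q hq
    by_cases hex : ∃ a b : ι, a ≠ b ∧ 1 ≤ q a ∧ 1 ≤ q b
    · obtain ⟨a, b, hab, ha, hb⟩ := hex
      have hne : h a - h b ≠ 0 := sub_ne_zero.2 (fun e => hab (hh e))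
      have hT : 2 ≤ T + 1 := by
        rw [← hq]
        calc 2 ≤ q a + q b := by omega
          _ = ∑ i ∈ {a, b}, q i := by rw [Finset.sum_pair hab]
          _ ≤ ∑ i, q i := Finset.sum_le_sum_of_subset (Finset.subset_univ _)
      obtain ⟨T', rfl⟩ : ∃ T', T = T' + 1 := ⟨T - 1, by omega⟩
      have e1 := ih T' (by omega) (Function.update q b (q b - 1))
        (by have := sum_update hb; omega)
      have e2 := ih T' (by omega) (Function.update q a (q a - 1))
        (by have := sum_update ha; omega)
      have hrec := S_rec hh hab ha hb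
      rw [e1, e2] at hrec
      -- the common part
      have hb' : 1 ≤ Function.update q a (q a - 1) b := by
        rw [Function.update_of_ne hab.symm]; exact hb
      have ha' : 1 ≤ Function.update q b (q b - 1) a := by
        rw [Function.update_of_ne hab]; exact ha
      have p1 := prod_update h ha'
      have p2 := prod_update h hb'
      have p3 := prod_update h hb
      rw [Function.update_of_ne hab] at p1
      rw [Function.update_of_ne hab.symm] at p2
      rw [Function.update_comm hab] at p2
      have hC : (C (h a - h b) : ℚ⟦X⟧) ≠ 0 := by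
        intro h0
        apply hne
        have := congrArg (constantCoeff) h0
        simpa using this
      apply mul_left_cancel₀ hC
      rw [hrec, ← p3, ← p1, ← p2]
      have hv := V_sub (h a) (h b)
      rw [pow_succ]
      linear_combination (-(X ^ T' * (∏ i, V (h i) ^
        (Function.update (Function.update q b (q b - 1)) a (q a - 1) i)))) * hv
    · push Not at hex
      obtain ⟨a, ha⟩ : ∃ a, 1 ≤ q a := by
        by_contra hcon
        push Not at hcon
        have : ∑ i, q i = 0 := Finset.sum_eq_zero (fun i _ => by have := hcon i; omega)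
        omega
      have hz : ∀ b, b ≠ a → q b = 0 := fun b hb => by
        have := hex a b (Ne.symm hb) ha; omega
      have hqa : q a = T + 1 := by
        rw [← hq, Finset.sum_eq_single a (fun b _ hb => hz b hb) (fun hna => absurd (mem_univ a) hna)]
      have hG : G h q a = 1 := by
        unfold G
        apply Finset.prod_eq_one
        intro l hl
        rw [hz l (Finset.ne_of_mem_erase hl), pow_zero]
      have hSS : SS h q = Si h q a := by
        unfold SS
        apply Finset.sum_eq_single a
        · intro b _ hb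
          unfold Si
          rw [hz b hb]; simp
        · intro hna; exact absurd (mem_univ a) hna
      have hprod : ∏ i, V (h i) ^ (q i) = V (h a) ^ (q a) := by
        apply Finset.prod_eq_single a
        · intro b _ hb
          rw [hz b hb, pow_zero]
        · intro hna; exact absurd (mem_univ a) hna
      rw [hSS, hprod]
      unfold Si
      rw [hG, hqa, Finset.sum_eq_single T]
      · simp
      · intro s hs hsT
        rw [mem_range] at hs
        rw [coeff_one, if_neg (by omega), map_zero, zero_mul]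
      · intro hT; exact absurd (mem_range.2 (Nat.lt_succ_self T)) hT

/-- vanishing of the moments -/
theorem moments_zero {h : ι → ℚ} (hh : Function.Injective h) {T : ℕ} {q : ι → ℕ}
    (hq : ∑ i, q i = T + 1) {N : ℕ} (hN : N < T) :
    ∑ i, ∑ s ∈ range (q i), coeff (q i - 1 - s) (G h q i) *
      ((N.choose s : ℚ) * (h i) ^ (N - s)) = 0 := by
  have h1 := congrArg (coeff N) (partial_fractions' hh T q hq)
  rw [coeff_X_pow_mul', if_neg (by omega)] at h1
  rw [← h1]
  unfold SS Si
  rw [map_sum]
  apply Finset.sum_congr rfl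
  intro i _
  rw [map_sum]
  apply Finset.sum_congr rfl
  intro s _
  rw [coeff_C_mul, coeff_term]

end Pool.Agent.Lib.MP_ccb155_nt
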